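import Pool.Agent.Lib.TG_h3.Chart
import Pool.Agent.Lib.TG_h68.FinClos

/-!
# TANK G, toolbox (T4): existence of the affine normal model `A₀`
-/

set_option autoImplicit false

namespace Pool.Agent.TGD

open Pool.Agent.LU2 (IsFrac)
open Pool.Agent.TG

universe u

variable {k K : Type u} [Field k] [Field K] [Algebra k K]

theorem isAlgebraic_of_isFrac {A : Subalgebra k K} (hA : IsFrac A) (x : K) : IsAlgebraic A x := by
  obtain ⟨a, ha, b, hb, hb0, rfl⟩ := hA x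
  rw [div_eq_mul_inv]
  exact (isAlgebraic_algebraMap (⟨a, ha⟩ : A)).mul (isAlgebraic_algebraMap (⟨b, hb⟩ : A)).inv

theorem isFrac_mono {A B : Subalgebra k K} (h : A ≤ B) (hA : IsFrac A) : IsFrac B := fun x => by
  obtain ⟨a, ha, b, hb, hb0, hx⟩ := hA x
  exact ⟨a, h ha, b, h hb, hb0, hx⟩

theorem ncl_fg [PerfectField k] (hK : (⊤ : IntermediateField k K).FG) {A : Subalgebra k K}
    (hA : A.FG) (halg : ∀ a : K, IsAlgebraic A a) : (ncl A).FG := by
  have h1 : Module.Finite A (integralClosure A K) :=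
    Pool.Agent.TGh68.finite_integralClosure hK A hA halg
  have h2 : Algebra.FiniteType k A := (Subalgebra.fg_iff_finiteType A).1 hA
  have h3 : Algebra.FiniteType k (integralClosure A K) :=
    Algebra.FiniteType.trans h2 (Module.Finite.finiteType (integralClosure A K))
  rw [Subalgebra.fg_iff_finiteType]
  exact h3

/-- (T4) for a given finitely generated algebra. -/
theorem exists_A0_le [PerfectField k] (hK : (⊤ : IntermediateField k K).FG) (B : Subalgebra k K)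
    (hB : B.FG) (Z : Finset K) : ∃ A₀ : Subalgebra k K, A₀.FG ∧
      (∀ x : K, IsIntegral A₀ x → x ∈ A₀) ∧ IsFrac A₀ ∧ B ≤ A₀ ∧
      ∀ z ∈ Z, z ∈ A₀ ∧ z⁻¹ ∈ A₀ := by
  classical
  obtain ⟨X, hX⟩ := hK
  obtain ⟨Y, hY⟩ := hB
  let A : Subalgebra k K := Algebra.adjoin k ((X ∪ Y ∪ (Z ∪ Z.image fun z => z⁻¹) : Finset K) :
    Set K)
  have hsub : ((X ∪ Y ∪ (Z ∪ Z.image fun z => z⁻¹) : Finset K) : Set K) ⊆ A :=
    Algebra.subset_adjoin
  have hAfg : A.FG := ⟨_, rfl⟩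
  have hfrac : IsFrac A := isFrac_of_adjoin A (X : Set K) hX fun x hx =>
    ⟨x, hsub (Finset.mem_coe.2 (Finset.mem_union_left _ (Finset.mem_union_left _
      (Finset.mem_coe.1 hx)))), 1, A.one_mem, one_ne_zero, mul_one x⟩
  refine ⟨ncl A, ncl_fg ⟨X, hX⟩ hAfg (isAlgebraic_of_isFrac hfrac), fun x hx => ?_,
    isFrac_mono (le_ncl A) hfrac, ?_, fun z hz => ⟨?_, ?_⟩⟩
  · have h1 : x ∈ ncl (ncl A) := hx
    rwa [ncl_ncl] at h1
  · rw [← hY]
    refine Algebra.adjoin_le fun y hy => le_ncl A (hsub (Finset.mem_coe.2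
      (Finset.mem_union_left _ (Finset.mem_union_right _ (Finset.mem_coe.1 hy)))))
  · exact le_ncl A (hsub (Finset.mem_coe.2 (Finset.mem_union_right _
      (Finset.mem_union_left _ hz))))
  · exact le_ncl A (hsub (Finset.mem_coe.2 (Finset.mem_union_right _
      (Finset.mem_union_right _ (Finset.mem_image_of_mem _ hz)))))

/-- **(T4)** The affine normal model. -/
theorem exists_A0 [PerfectField k] (hK : (⊤ : IntermediateField k K).FG) (Z : Finset K) :
    ∃ A₀ : Subalgebra k K, A₀.FG ∧ (∀ x : K, IsIntegral A₀ x → x ∈ A₀) ∧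
      (∀ x : K, ∃ a ∈ A₀, ∃ s ∈ A₀, s ≠ 0 ∧ x = a / s) ∧ ∀ z ∈ Z, z ∈ A₀ ∧ z⁻¹ ∈ A₀ := by
  obtain ⟨A₀, h1, h2, h3, -, h5⟩ := exists_A0_le hK ⊥ Subalgebra.fg_bot Z
  exact ⟨A₀, h1, h2, h3, h5⟩

end Pool.Agent.TGD
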