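import Pool.Agent.Lib.TG_h3.Desc
import Pool.Agent.Lib.TG_h85.BC

/-!
# TANK G, descent: `[n]` over a bigger algebraically closed field implies `[n]`
-/

set_option autoImplicit false

namespace Pool.Agent.TGD

open scoped TensorProduct
open Pool.Agent.TG

universe u

theorem wlw_of_wl {k : Type u} [Field k] {n : ℕ} (h : WL k n) : WLw k n := by
  intro K _ _ hK hn Z hZ
  obtain ⟨P, hP, -, hreg⟩ := h K hK hn (1 : Submodule k K) IsModel.one Z hZ
  refine ⟨P, hP, fun V hV => ?_⟩
  obtain ⟨t, ht, htz⟩ := hreg V hV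
  refine ⟨t, ht, fun z hz => ?_⟩
  obtain ⟨e, w, hw, hw1, h1, -, -⟩ := htz z hz
  exact ⟨e, w, hw, hw1, h1⟩

theorem wlw_descent (k k' : Type u) [Field k] [Field k'] [Algebra k k'] [IsAlgClosed k]
    [IsAlgClosed k'] (n : ℕ) (h : WLw k' n) : WLw k n := by
  classical
  intro K _ _ hK hn Z hZ
  have hdom : IsDomain (k' ⊗[k] K) := isDomain_tensor
  let K' : Type u := FractionRing (k' ⊗[k] K)
  have _ : IsScalarTower k' (k' ⊗[k] K) K' := inferInstance
  obtain ⟨P', hP', hreg⟩ := h K' (top_fg_baseChange (k := k) (K := K) hK)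
    (by rw [trdeg_baseChange k K k' K', hn]) (Z.image (jK k k' K K')) (by
    intro z hz
    obtain ⟨x, hx, rfl⟩ := Finset.mem_image.1 hz
    exact (_root_.map_ne_zero _).2 (hZ x hx))
  rw [Finset.coe_image] at hreg
  exact descent_core hK hn Z hP' hreg

/-- **Descent**: the statement `[n]` over an algebraically closed field `k'` implies the
statement `[n]` over each algebraically closed subfield `k`. -/
theorem wl_descent (k k' : Type u) [Field k] [Field k'] [Algebra k k'] [IsAlgClosed k]
    [IsAlgClosed k'] (n : ℕ) (h : WL k' n) : WL k n :=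
  wl_of_wlw k n (wlw_descent k k' n (wlw_of_wl h))

end Pool.Agent.TGD
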