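import Pool.Agent.Lib.TG_h3.Prod

/-!
# TANK G, descent: finitely many patches cover a chart
-/

set_option autoImplicit false

namespace Pool.Agent.TGD

open MvPolynomial
open Pool.Agent.LU2 (locV IsPar Mono IsFrac locV_inv locV_mem le_locV)
open Pool.Agent.TG

universe u

section Chart

variable {k K : Type u} [Field k] [Field K] [Algebra k K]
  {σ : Type u} [Fintype σ] [DecidableEq σ] {n : ℕ} {ζ : Type u} [Fintype ζ]

theorem tau_mem (P : Patch k σ n ζ) (b : σ → K) (j : Fin n) :
    P.tau (algebraMap k K) b j ∈ Algebra.adjoin k (Set.range b) := ev_mem b _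

theorem hv_mem (P : Patch k σ n ζ) (b : σ → K) :
    P.hv (algebraMap k K) b ∈ Algebra.adjoin k (Set.range b) := by
  have hpt : ∀ x, P.pt (algebraMap k K) b x ∈ Algebra.adjoin k (Set.range b) := by
    rintro (l | j)
    · exact Algebra.subset_adjoin ⟨l, rfl⟩
    · exact tau_mem P b j
  refine Subalgebra.mul_mem _ (det_mem fun l m => aeval_mem hpt _)
    (Subalgebra.prod_mem _ fun i _ => Subalgebra.mul_mem _ (ev_mem b _) (ev_mem b _))

/-- Finitely many patches cover a chart. -/
theorem exists_chart [IsAlgClosed k] (b : σ → K) (z : ζ → K)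
    (h : ∀ V : ValuationSubring K, ZDim k V → (∀ x ∈ Algebra.adjoin k (Set.range b), x ∈ V) →
      ∃ P : Patch k σ n ζ, P.Ok (algebraMap k K) b z ∧
        V.valuation (P.hv (algebraMap k K) b) = 1) :
    ∃ (r : ℕ) (P : Fin r → Patch k σ n ζ) (c : Fin r → MvPolynomial σ k),
      (∀ a, (P a).Ok (algebraMap k K) b z) ∧
      ∑ a, eval₂Hom (algebraMap k K) b (c a) * (P a).hv (algebraMap k K) b = 1 := by
  classical
  have hpoly : ∀ x ∈ Algebra.adjoin k (Set.range b), ∃ p : MvPolynomial σ k,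
    eval₂Hom (algebraMap k K) b p = x := fun x hx => exists_poly hx
  have hhv : ∀ P : Patch k σ n ζ, P.hv (algebraMap k K) b ∈ Algebra.adjoin k (Set.range b) :=
    fun P => hv_mem P b
  have hfg : (Algebra.adjoin k (Set.range b)).FG :=
    Subalgebra.fg_def.2 ⟨_, Set.finite_range b, rfl⟩
  set B := Algebra.adjoin k (Set.range b) with hBdef
  let T : Set B := {x | ∃ P : Patch k σ n ζ, P.Ok (algebraMap k K) b z ∧
    (x : K) = P.hv (algebraMap k K) b}
  have h1 : Ideal.span T = ⊤ := by
    by_contra hne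
    obtain ⟨m, hm, hle⟩ := Ideal.exists_le_maximal _ hne
    obtain ⟨V, hV, hBV, hc⟩ := exists_zdim_maximal B hfg m hm
    obtain ⟨P, hP, hv⟩ := h V hV hBV
    have h2 : (⟨P.hv (algebraMap k K) b, hhv P⟩ : B) ∈ m := hle (Ideal.subset_span ⟨P, hP, rfl⟩)
    have h3 := (hc _).1 h2
    change V.valuation (P.hv (algebraMap k K) b) < 1 at h3
    rw [hv] at h3
    exact lt_irrefl _ h3
  have h2 : (1 : B) ∈ Submodule.span B T := by
    have : (1 : B) ∈ Ideal.span T := by rw [h1]; exact Submodule.mem_top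
    exact this
  obtain ⟨r, c, g, hg⟩ := Submodule.mem_span_set'.1 h2
  choose P hP hPg using fun a => (g a).2
  choose p hp using fun a => hpoly (c a) (c a).2
  refine ⟨r, P, p, hP, ?_⟩
  have h3 := congrArg (algebraMap B K) hg
  rw [map_sum, map_one] at h3
  rw [← h3]
  refine Finset.sum_congr rfl fun a _ => ?_
  rw [hp, smul_eq_mul, map_mul, ← hPg]
  rfl

/-- At each point of the chart one of the patches is good. -/
theorem exists_good (b : σ → K) {V : ValuationSubring K}
    (hB : ∀ x ∈ Algebra.adjoin k (Set.range b), x ∈ V) {r : ℕ} (P : Fin r → Patch k σ n ζ)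
    (c : Fin r → MvPolynomial σ k)
    (h : ∑ a, eval₂Hom (algebraMap k K) b (c a) * (P a).hv (algebraMap k K) b = 1) :
    ∃ a, V.valuation ((P a).hv (algebraMap k K) b) = 1 := by
  by_contra hcon
  push Not at hcon
  have h1 : V.valuation (∑ a, eval₂Hom (algebraMap k K) b (c a) *
      (P a).hv (algebraMap k K) b) < 1 := by
    refine sum_lt _ fun a _ => mul_lt_right (hB _ (ev_mem b _)) ?_
    exact lt_of_le_of_ne ((V.valuation_le_one_iff _).2 (hB _ (hv_mem _ b))) (hcon a)
  rw [h, map_one] at h1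
  exact lt_irrefl _ h1

end Chart

section Frac

variable {k K : Type u} [Field k] [Field K] [Algebra k K]

/-- The field of fractions of `B` inside `K`. -/
theorem isFrac_of_adjoin (B : Subalgebra k K) (X : Set K)
    (hX : IntermediateField.adjoin k X = ⊤)
    (h : ∀ x ∈ X, ∃ a ∈ B, ∃ b ∈ B, b ≠ 0 ∧ x * b = a) : IsFrac B := by
  intro f
  have hf : f ∈ IntermediateField.adjoin k X := by
    rw [hX]
    exact IntermediateField.mem_top
  induction hf using IntermediateField.adjoin_induction with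
  | mem x hx =>
    obtain ⟨a, ha, b, hb, hb0, hab⟩ := h x hx
    exact ⟨a, ha, b, hb, hb0, by rw [← hab, mul_div_cancel_right₀ _ hb0]⟩
  | algebraMap c => exact ⟨_, B.algebraMap_mem c, 1, B.one_mem, one_ne_zero, by rw [div_one]⟩
  | add x y _ _ hx hy =>
    obtain ⟨a, ha, b, hb, hb0, rfl⟩ := hx
    obtain ⟨c, hc, d, hd, hd0, rfl⟩ := hy
    exact ⟨a * d + b * c, B.add_mem (B.mul_mem ha hd) (B.mul_mem hb hc), b * d,
      B.mul_mem hb hd, mul_ne_zero hb0 hd0, by rw [div_add_div _ _ hb0 hd0]⟩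
  | inv x _ hx =>
    obtain ⟨a, ha, b, hb, hb0, rfl⟩ := hx
    by_cases ha0 : a = 0
    · refine ⟨0, B.zero_mem, 1, B.one_mem, one_ne_zero, ?_⟩
      rw [ha0]
      simp
    · exact ⟨b, hb, a, ha, ha0, by rw [inv_div]⟩
  | mul x y _ _ hx hy =>
    obtain ⟨a, ha, b, hb, hb0, rfl⟩ := hx
    obtain ⟨c, hc, d, hd, hd0, rfl⟩ := hy
    exact ⟨a * c, B.mul_mem ha hc, b * d, B.mul_mem hb hd, mul_ne_zero hb0 hd0, by
      rw [div_mul_div_comm]⟩

theorem exists_zdim_ch [IsAlgClosed k] (B : Subalgebra k K) (hfg : B.FG) :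
    ∃ V : ValuationSubring K, ZDim k V ∧ ∀ x ∈ B, x ∈ V := by
  obtain ⟨m, hm⟩ := Ideal.exists_maximal B
  obtain ⟨V, hV, hBV, -⟩ := exists_zdim_maximal B hfg m hm
  exact ⟨V, hV, hBV⟩

end Frac

section Model

variable {k K : Type u} [Field k] [Field K] [Algebra k K]

theorem ch_span_range {σ : Type*} (f : σ → K) (g : K) :
    ch (Submodule.span k (Set.range f)) g = Algebra.adjoin k (Set.range fun l => f l / g) := by
  apply le_antisymm
  · rw [ch_le_iff]
    intro x hx
    induction hx using Submodule.span_induction with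
    | mem x hx =>
      obtain ⟨l, rfl⟩ := hx
      exact Algebra.subset_adjoin ⟨l, rfl⟩
    | zero =>
      rw [zero_div]
      exact Subalgebra.zero_mem _
    | add x y _ _ hx hy =>
      rw [add_div]
      exact Subalgebra.add_mem _ hx hy
    | smul c x _ hx =>
      rw [smul_div_assoc]
      exact Subalgebra.smul_mem _ hx c
  · refine Algebra.adjoin_le ?_
    rintro _ ⟨l, rfl⟩
    exact div_mem_ch (Submodule.subset_span ⟨l, rfl⟩)

theorem isMin_of_range {σ : Type*} {V : ValuationSubring K} (hV : Ov k V) (f : σ → K) (i : σ)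
    (h0 : f i ≠ 0) (h : ∀ l, f l / f i ∈ V) :
    IsMin V (Submodule.span k (Set.range f)) (f i) :=
  isMin_of_span hV (Submodule.subset_span ⟨i, rfl⟩) h0 (by rintro _ ⟨l, rfl⟩; exact h l)

theorem exists_isMin_range {σ : Type*} [Finite σ] [Nonempty σ] {V : ValuationSubring K}
    (hV : Ov k V) (f : σ → K) (h0 : ∀ i, f i ≠ 0) :
    ∃ i, IsMin V (Submodule.span k (Set.range f)) (f i) := by
  classical
  have := Fintype.ofFinite σ
  obtain ⟨i, hi⟩ := Finite.exists_max fun i => V.valuation (f i)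
  refine ⟨i, isMin_of_range hV f i (h0 i) fun l => ?_⟩
  rw [← V.valuation_le_one_iff, map_div₀]
  exact (div_le_one₀ (zero_lt_iff.2 ((Valuation.ne_zero_iff _).2 (h0 i)))).2 (hi l)

theorem isModel_range {σ : Type*} [Finite σ] [Nonempty σ] (f : σ → K) (h0 : ∀ i, f i ≠ 0) :
    IsModel (Submodule.span k (Set.range f)) := by
  refine ⟨Submodule.fg_span (Set.finite_range f), fun h => ?_⟩
  obtain ⟨i⟩ := ‹Nonempty σ›
  have h1 : f i ∈ Submodule.span k (Set.range f) := Submodule.subset_span ⟨i, rfl⟩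
  rw [h, Submodule.mem_bot] at h1
  exact h0 i h1

theorem exists_family {P : Submodule k K} (hP : IsModel P) :
    ∃ (σ : Type u) (_ : Fintype σ) (_ : DecidableEq σ) (_ : Nonempty σ) (f : σ → K),
      (∀ i, f i ≠ 0) ∧ Submodule.span k (Set.range f) = P := by
  classical
  obtain ⟨S, hS⟩ := hP.fg
  have h1 : Submodule.span k ((S.filter (· ≠ 0) : Finset K) : Set K) = P := by
    rw [← hS]
    apply le_antisymm
    · exact Submodule.span_mono fun x hx => Finset.mem_of_mem_filter x hx
    · refine Submodule.span_le.2 fun x hx => ?_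
      by_cases h0 : x = 0
      · rw [h0]
        exact Submodule.zero_mem _
      · exact Submodule.subset_span (Finset.mem_coe.2 (Finset.mem_filter.2 ⟨hx, h0⟩))
  have hne : (S.filter (· ≠ 0)).Nonempty := by
    rw [Finset.nonempty_iff_ne_empty]
    intro he
    rw [he, Finset.coe_empty, Submodule.span_empty] at h1
    exact hP.ne h1.symm
  refine ⟨↥(S.filter (· ≠ 0)), inferInstance, inferInstance, hne.to_subtype, fun x => x.1,
    fun x => (Finset.mem_filter.1 x.2).2, ?_⟩
  rw [Subtype.range_coe_subtype]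
  exact h1

end Model

end Pool.Agent.TGD
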