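import Mathlib

/-!
# TANK G, descent: base change to a bigger algebraically closed field and specialisation
-/

set_option autoImplicit false

namespace Pool.Agent.TGD

open scoped TensorProduct
open Module

universe u

section Null

variable {k : Type u} [Field k]

/-- Vanishing at the closed points. -/
theorem eq_zero_of_forall_hom [IsAlgClosed k] {A : Type u} [CommRing A] [IsDomain A] [Algebra k A]
    [Algebra.FiniteType k A] {a : A} (h : ∀ f : A →ₐ[k] k, f a = 0) : a = 0 := by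
  have hJ : IsJacobsonRing A := isJacobsonRing_of_finiteType (A := k)
  have h1 : a ∈ Ideal.jacobson (⊥ : Ideal A) := by
    rw [Ideal.jacobson, Submodule.mem_sInf]
    rintro m ⟨-, hm⟩
    let _ := Ideal.Quotient.field m
    have hfin : Module.Finite k (A ⧸ m) := finite_of_finite_type_of_isJacobsonRing k (A ⧸ m)
    have hb : Function.Bijective (algebraMap k (A ⧸ m)) :=
      IsAlgClosed.algebraMap_bijective_of_isIntegral
    let e : k ≃ₐ[k] (A ⧸ m) := AlgEquiv.ofBijective (Algebra.ofId k _) hb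
    have h2 := h (e.symm.toAlgHom.comp (Ideal.Quotient.mkₐ k m))
    have h3 : (Ideal.Quotient.mkₐ k m) a = 0 := by
      have h4 : e.symm (Ideal.Quotient.mkₐ k m a) = 0 := h2
      exact (map_eq_zero_iff e.symm e.symm.injective).1 h4
    exact Ideal.Quotient.eq_zero_iff_mem.1 h3
  have h2 : (⊥ : Ideal A).IsRadical := Ideal.IsPrime.isRadical Ideal.isPrime_bot
  have h3 : Ideal.jacobson (⊥ : Ideal A) = ⊥ := by
    have := (isJacobsonRing_iff.1 hJ) ⊥ h2
    exact this
  rw [h3] at h1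
  exact h1

theorem exists_hom_ne [IsAlgClosed k] {A : Type u} [CommRing A] [IsDomain A] [Algebra k A]
    [Algebra.FiniteType k A] {a : A} (ha : a ≠ 0) : ∃ φ : A →ₐ[k] k, φ a ≠ 0 := by
  by_contra h
  push Not at h
  exact ha (eq_zero_of_forall_hom h)

end Null

section Ev

variable {k K A : Type u} [Field k] [Field K] [Algebra k K] [CommRing A] [Algebra k A]

/-- Evaluation of `A ⊗ K` at a `k`-point of `A`. -/
noncomputable def ev (φ : A →ₐ[k] k) : A ⊗[k] K →ₐ[k] K :=
  Algebra.TensorProduct.lift ((Algebra.ofId k K).comp φ) (AlgHom.id k K) fun _ _ => Commute.all _ _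

theorem ev_tmul (φ : A →ₐ[k] k) (a : A) (x : K) :
    ev φ (a ⊗ₜ[k] x) = algebraMap k K (φ a) * x := by
  simp [ev, Algebra.TensorProduct.lift_tmul, Algebra.ofId_apply]

theorem repr_ev (φ : A →ₐ[k] k) {ι : Type*} (b : Basis ι k K) (w : A ⊗[k] K) (i : ι) :
    b.repr (ev φ w) i = φ ((Algebra.TensorProduct.basis A b).repr w i) := by
  induction w with
  | zero => simp
  | add x y hx hy => simp [hx, hy]
  | tmul x y =>
    rw [ev_tmul, ← Algebra.smul_def]
    simp [Algebra.TensorProduct.basis_repr_tmul]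

end Ev

section Sub

variable {k k' K : Type u} [Field k] [Field k'] [Field K] [Algebra k k'] [Algebra k K]

/-- The inclusion `A ⊗ K → k' ⊗ K`. -/
noncomputable def incA (A : Subalgebra k k') : A ⊗[k] K →ₐ[k] k' ⊗[k] K :=
  Algebra.TensorProduct.map A.val (AlgHom.id k K)

theorem incA_injective (A : Subalgebra k k') : Function.Injective (incA (K := K) A) := by
  have h1 := Module.Flat.rTensor_preserves_injective_linearMap (R := k) (M := K)
    A.val.toLinearMap Subtype.val_injective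
  intro x y hxy
  apply h1
  exact hxy

theorem repr_incA (A : Subalgebra k k') {ι : Type*} (b : Basis ι k K) (w : A ⊗[k] K) (i : ι) :
    (Algebra.TensorProduct.basis k' b).repr (incA A w) i =
      (((Algebra.TensorProduct.basis A b).repr w i : A) : k') := by
  induction w with
  | zero => simp
  | add x y hx hy => simp [hx, hy]
  | tmul x y =>
    simp [incA, Algebra.TensorProduct.basis_repr_tmul]

theorem exists_lift (A : Subalgebra k k') {ι : Type*} (b : Basis ι k K) (x : k' ⊗[k] K)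
    (h : ∀ i, (Algebra.TensorProduct.basis k' b).repr x i ∈ A) : ∃ w, incA A w = x := by
  classical
  refine ⟨∑ i ∈ ((Algebra.TensorProduct.basis k' b).repr x).support,
    (⟨(Algebra.TensorProduct.basis k' b).repr x i, h i⟩ : A) ⊗ₜ[k] b i, ?_⟩
  rw [map_sum]
  conv_rhs => rw [← (Algebra.TensorProduct.basis k' b).linearCombination_repr x]
  rw [Finsupp.linearCombination_apply, Finsupp.sum]
  refine Finset.sum_congr rfl fun i _ => ?_
  rw [incA, Algebra.TensorProduct.map_tmul, Algebra.TensorProduct.basis_apply,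
    TensorProduct.smul_tmul']
  simp

/-- A finitely generated subalgebra over which given elements are defined. -/
theorem exists_sub (A : Subalgebra k k') (hA : A.FG) {ι : Type*} (b : Basis ι k K)
    (S : Finset (k' ⊗[k] K)) : ∃ A' : Subalgebra k k', A'.FG ∧ A ≤ A' ∧
      ∀ x ∈ S, ∀ i, (Algebra.TensorProduct.basis k' b).repr x i ∈ A' := by
  classical
  let T : Finset k' := S.biUnion fun x =>
    ((Algebra.TensorProduct.basis k' b).repr x).support.image
      fun i => (Algebra.TensorProduct.basis k' b).repr x i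
  refine ⟨A ⊔ Algebra.adjoin k (T : Set k'), hA.sup ⟨T, rfl⟩, le_sup_left, fun x hx i => ?_⟩
  by_cases h0 : (Algebra.TensorProduct.basis k' b).repr x i = 0
  · rw [h0]
    exact Subalgebra.zero_mem _
  · refine (le_sup_right : _ ≤ A ⊔ Algebra.adjoin k (T : Set k')) (Algebra.subset_adjoin ?_)
    rw [Finset.mem_coe, Finset.mem_biUnion]
    exact ⟨x, hx, Finset.mem_image.2 ⟨i, Finsupp.mem_support_iff.2 h0, rfl⟩⟩

theorem finiteType_of_fg {A : Subalgebra k k'} (hA : A.FG) : Algebra.FiniteType k A :=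
  (Subalgebra.fg_iff_finiteType A).1 hA

/-- A good point. -/
theorem exists_point [IsAlgClosed k] (A : Subalgebra k k') (hA : A.FG)
    (S : Finset (A ⊗[k] K)) (hS : ∀ w ∈ S, w ≠ 0) :
    ∃ φ : A →ₐ[k] k, ∀ w ∈ S, ev (K := K) φ w ≠ 0 := by
  classical
  have hft := finiteType_of_fg hA
  let b := Basis.ofVectorSpace k K
  have h1 : ∀ w ∈ S, ∃ i, (Algebra.TensorProduct.basis A b).repr w i ≠ 0 := by
    intro w hw
    by_contra h
    push Not at h
    apply hS w hw
    rw [← (Algebra.TensorProduct.basis A b).repr.map_eq_zero_iff]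
    exact Finsupp.ext h
  have hne : Nonempty (Basis.ofVectorSpaceIndex k K) := b.index_nonempty
  choose! i hi using h1
  obtain ⟨φ, hφ⟩ := exists_hom_ne (k := k)
    (a := ∏ w ∈ S, (Algebra.TensorProduct.basis A b).repr w (i w))
    (Finset.prod_ne_zero_iff.2 fun w hw => hi w hw)
  rw [map_prod, Finset.prod_ne_zero_iff] at hφ
  refine ⟨φ, fun w hw h0 => hφ w hw ?_⟩
  rw [← repr_ev φ b w, h0]
  simp

theorem noZeroDivisors_tensor [IsAlgClosed k] : NoZeroDivisors (k' ⊗[k] K) := by
  classical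
  refine ⟨fun {x y} hxy => ?_⟩
  by_contra hne
  rw [not_or] at hne
  let b := Basis.ofVectorSpace k K
  obtain ⟨A, hA, -, hc⟩ := exists_sub (K := K) (⊥ : Subalgebra k k') Subalgebra.fg_bot b {x, y}
  obtain ⟨wx, hwx⟩ := exists_lift A b x (hc x (by simp))
  obtain ⟨wy, hwy⟩ := exists_lift A b y (hc y (by simp))
  have hx0 : wx ≠ 0 := by
    rintro rfl
    exact hne.1 (by rw [← hwx, map_zero])
  have hy0 : wy ≠ 0 := by
    rintro rfl
    exact hne.2 (by rw [← hwy, map_zero])
  obtain ⟨φ, hφ⟩ := exists_point A hA {wx, wy} (by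
    intro w hw
    rw [Finset.mem_insert, Finset.mem_singleton] at hw
    rcases hw with rfl | rfl
    · exact hx0
    · exact hy0)
  have h1 : wx * wy = 0 := by
    apply incA_injective (K := K) A
    rw [map_mul, hwx, hwy, hxy, map_zero]
  have h2 : ev (K := K) φ wx * ev φ wy = 0 := by rw [← map_mul, h1, map_zero]
  rcases mul_eq_zero.1 h2 with h | h
  · exact hφ wx (by simp) h
  · exact hφ wy (by simp) h

theorem isDomain_tensor [IsAlgClosed k] : IsDomain (k' ⊗[k] K) := by
  have : Nontrivial (k' ⊗[k] K) := inferInstance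
  have := noZeroDivisors_tensor (k := k) (k' := k') (K := K)
  exact NoZeroDivisors.to_isDomain _

end Sub

section Loc

/-- The localisation at the kernel of a map to a field. -/
theorem exists_loc {B K K' : Type u} [CommRing B] [Field K] [Field K'] (ψ₀ : B →+* K)
    (g : B →+* K') (hg : Function.Injective g) :
    ∃ (L : Type u) (_ : CommRing L) (i₀ : B →+* L) (ι : L →+* K') (ψ : L →+* K),
      Function.Injective ι ∧ (∀ x, ι (i₀ x) = g x) ∧ (∀ x, ψ (i₀ x) = ψ₀ x) ∧
      ∀ x, ψ₀ x ≠ 0 → IsUnit (i₀ x) := by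
  let I : Ideal B := RingHom.ker ψ₀
  have hI : I.IsPrime := RingHom.ker_isPrime ψ₀
  have hψ₀ : ∀ y : I.primeCompl, IsUnit (ψ₀ y) := fun y => isUnit_iff_ne_zero.2 fun h0 => y.2 h0
  have hgM : ∀ y : I.primeCompl, IsUnit (g y) := fun y => isUnit_iff_ne_zero.2 fun h0 => by
    have h4 : (y : B) = 0 := hg (by rw [h0, map_zero])
    apply y.2
    rw [h4]
    exact I.zero_mem
  refine ⟨Localization I.primeCompl, inferInstance, algebraMap B _,
    IsLocalization.lift (M := I.primeCompl) hgM, IsLocalization.lift (M := I.primeCompl) hψ₀,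
    ?_, fun x => IsLocalization.lift_eq hgM x, fun x => IsLocalization.lift_eq hψ₀ x,
    fun x hx => IsLocalization.map_units _ (⟨x, hx⟩ : I.primeCompl)⟩
  rw [injective_iff_map_eq_zero]
  intro x hx
  obtain ⟨a, s, rfl⟩ := IsLocalization.exists_mk'_eq I.primeCompl x
  rw [IsLocalization.lift_mk', Units.mul_left_eq_zero] at hx
  have h5 : a = 0 := hg (by rw [hx, map_zero])
  rw [h5, IsLocalization.mk'_zero]

end Loc

section Spec

variable {k k' K K' : Type u} [Field k] [Field k'] [Field K] [Algebra k k'] [Algebra k K]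
  [Field K'] [Algebra (k' ⊗[k] K) K'] [IsFractionRing (k' ⊗[k] K) K']

variable (k k' K K') in
/-- The embedding of `K`. -/
noncomputable def jK : K →+* K' :=
  (algebraMap (k' ⊗[k] K) K').comp
    (Algebra.TensorProduct.includeRight : K →ₐ[k] k' ⊗[k] K).toRingHom

variable (k k' K K') in
/-- The embedding of `k'`. -/
noncomputable def jk : k' →+* K' :=
  (algebraMap (k' ⊗[k] K) K').comp
    (Algebra.TensorProduct.includeLeft : k' →ₐ[k] k' ⊗[k] K).toRingHom

/-- Specialisation. -/
theorem exists_spec [IsAlgClosed k] (A : Subalgebra k k') (hA : A.FG) (F : Finset K')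
    (hF : ∀ f ∈ F, f ≠ 0) :
    ∃ (L : Type u) (_ : CommRing L) (ι : L →+* K') (ψ : L →+* K) (κ : K →+* L) (α : A →+* L)
      (φ : A →ₐ[k] k), Function.Injective ι ∧ (∀ x, ι (κ x) = jK k k' K K' x) ∧
      (∀ x, ψ (κ x) = x) ∧ (∀ a : A, ι (α a) = jk k k' K K' a) ∧
      (∀ a, ψ (α a) = algebraMap k K (φ a)) ∧ ∀ f ∈ F, ∃ x, IsUnit x ∧ ι x = f := by
  classical
  have hdom : IsDomain (k' ⊗[k] K) := isDomain_tensor
  let b := Basis.ofVectorSpace k K
  have hinj : Function.Injective (algebraMap (k' ⊗[k] K) K') := IsFractionRing.injective _ _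
  have h1 : ∀ f : K', ∃ p q : k' ⊗[k] K, q ≠ 0 ∧
      f = algebraMap (k' ⊗[k] K) K' p / algebraMap (k' ⊗[k] K) K' q := by
    intro f
    obtain ⟨p, q, hq, rfl⟩ := IsFractionRing.div_surjective (A := k' ⊗[k] K) f
    exact ⟨p, q, nonZeroDivisors.ne_zero hq, rfl⟩
  choose p q hq0 hpq using h1
  have hp0 : ∀ f ∈ F, p f ≠ 0 := by
    intro f hf h0
    apply hF f hf
    rw [hpq f, h0, map_zero, zero_div]
  obtain ⟨A₁, hA₁, hle, hc⟩ := exists_sub A hA b (F.image p ∪ F.image q)
  have h2 : ∀ f ∈ F, ∃ w, incA A₁ w = p f := fun f hf =>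
    exists_lift A₁ b _ (hc _ (Finset.mem_union_left _ (Finset.mem_image_of_mem _ hf)))
  have h3 : ∀ f ∈ F, ∃ w, incA A₁ w = q f := fun f hf =>
    exists_lift A₁ b _ (hc _ (Finset.mem_union_right _ (Finset.mem_image_of_mem _ hf)))
  choose! P hP using h2
  choose! Q hQ using h3
  obtain ⟨φ, hφ⟩ := exists_point A₁ hA₁ (F.image P ∪ F.image Q) (by
    intro w hw h0
    rw [Finset.mem_union, Finset.mem_image, Finset.mem_image] at hw
    rcases hw with ⟨f, hf, rfl⟩ | ⟨f, hf, rfl⟩
    · apply hp0 f hf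
      rw [← hP f hf, h0, map_zero]
    · apply hq0 f
      rw [← hQ f hf, h0, map_zero])
  let ψ₀ : A₁ ⊗[k] K →+* K := (ev (K := K) φ).toRingHom
  let g : A₁ ⊗[k] K →+* K' := (algebraMap (k' ⊗[k] K) K').comp (incA A₁).toRingHom
  have hg : Function.Injective g := hinj.comp (incA_injective A₁)
  obtain ⟨L, _, i₀, ι, ψ, hιi, hι, hψ, hun⟩ := exists_loc ψ₀ g hg
  let κ : K →+* L := i₀.comp (Algebra.TensorProduct.includeRight : K →ₐ[k] A₁ ⊗[k] K).toRingHom
  let α : A →+* L := (i₀.comp
    (Algebra.TensorProduct.includeLeft : A₁ →ₐ[k] A₁ ⊗[k] K).toRingHom).comp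
      (Subalgebra.inclusion hle).toRingHom
  refine ⟨L, inferInstance, ι, ψ, κ, α, φ.comp (Subalgebra.inclusion hle), ?_, ?_, ?_, ?_, ?_, ?_⟩
  · exact hιi
  · intro x
    change ι (i₀ ((1 : A₁) ⊗ₜ[k] x)) = _
    rw [hι]
    change algebraMap (k' ⊗[k] K) K' (incA A₁ ((1 : A₁) ⊗ₜ[k] x)) = _
    rw [incA, Algebra.TensorProduct.map_tmul]
    simp [jK]
  · intro x
    change ψ (i₀ ((1 : A₁) ⊗ₜ[k] x)) = _
    rw [hψ]
    change ev φ ((1 : A₁) ⊗ₜ[k] x) = x
    rw [ev_tmul, map_one, map_one, one_mul]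
  · intro a
    change ι (i₀ ((Subalgebra.inclusion hle a : A₁) ⊗ₜ[k] (1 : K))) = _
    rw [hι]
    change algebraMap (k' ⊗[k] K) K' (incA A₁ ((Subalgebra.inclusion hle a : A₁) ⊗ₜ[k] (1 : K)))
      = _
    rw [incA, Algebra.TensorProduct.map_tmul]
    simp [jk]
  · intro a
    change ψ (i₀ ((Subalgebra.inclusion hle a : A₁) ⊗ₜ[k] (1 : K))) = _
    rw [hψ]
    change ev φ ((Subalgebra.inclusion hle a : A₁) ⊗ₜ[k] (1 : K)) = _
    rw [ev_tmul, mul_one]
    rfl
  · intro f hf
    have hPu : IsUnit (i₀ (P f)) := hun _ (hφ (P f) (Finset.mem_union_left _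
      (Finset.mem_image_of_mem _ hf)))
    have hQu : IsUnit (i₀ (Q f)) := hun _ (hφ (Q f) (Finset.mem_union_right _
      (Finset.mem_image_of_mem _ hf)))
    obtain ⟨uQ, huQ⟩ := hQu
    refine ⟨i₀ (P f) * ↑uQ⁻¹, hPu.mul (Units.isUnit _), ?_⟩
    have h4 : ι (i₀ (P f) * ↑uQ⁻¹) * ι (i₀ (Q f)) = ι (i₀ (P f)) := by
      rw [← map_mul, ← huQ, mul_assoc, Units.inv_mul, mul_one]
    rw [hι, hι] at h4
    have h5 : g (P f) = algebraMap (k' ⊗[k] K) K' (p f) := by
      change algebraMap (k' ⊗[k] K) K' (incA A₁ (P f)) = _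
      rw [hP f hf]
    have h6 : g (Q f) = algebraMap (k' ⊗[k] K) K' (q f) := by
      change algebraMap (k' ⊗[k] K) K' (incA A₁ (Q f)) = _
      rw [hQ f hf]
    rw [h5, h6] at h4
    have h7 : algebraMap (k' ⊗[k] K) K' (q f) ≠ 0 := by
      intro h0
      exact hq0 f (hinj (by rw [h0, map_zero]))
    refine Eq.trans ?_ (hpq f).symm
    rw [eq_div_iff h7]
    exact h4

end Spec

end Pool.Agent.TGD
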