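import Pool.Agent.Lib.TG_h3.Chart
import Pool.Agent.Lib.TG_h3.Spec

/-!
# TANK G, descent from a bigger algebraically closed field
-/

set_option autoImplicit false

namespace Pool.Agent.TGD

open scoped TensorProduct
open MvPolynomial
open Pool.Agent.LU2 (locV IsPar Mono IsFrac locV_inv locV_mem le_locV)
open Pool.Agent.TG

universe u

section Data

variable {k K : Type u} [Field k] [Field K] [Algebra k K] {σ : Type u} [Fintype σ]
  [DecidableEq σ] {n : ℕ} {ζ : Type u} [Fintype ζ]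

/-- The data on a chart. -/
theorem chart_data [IsAlgClosed k] {f : σ → K} (h0 : ∀ i, f i ≠ 0) (z : ζ → K)
    (hreg : LogRegW n (Submodule.span k (Set.range f)) (Set.range z)) (i : σ) :
    (∃ (r : ℕ) (P : Fin r → Patch k σ n ζ) (c : Fin r → MvPolynomial σ k),
      (∀ a, (P a).Ok (algebraMap k K) (fun l => f l / f i) z) ∧
      ∑ a, eval₂Hom (algebraMap k K) (fun l => f l / f i) (c a) *
        (P a).hv (algebraMap k K) (fun l => f l / f i) = 1) ∧
    IsFrac (Algebra.adjoin k (Set.range fun l => f l / f i)) := by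
  have key : ∀ V : ValuationSubring K, ZDim k V →
      (∀ x ∈ Algebra.adjoin k (Set.range fun l => f l / f i), x ∈ V) → ∃ t : Fin n → K,
      RegAt V (locV V (Algebra.adjoin k (Set.range fun l => f l / f i))) t ∧
      ∀ y, MonoZ V (locV V (Algebra.adjoin k (Set.range fun l => f l / f i))) t (z y) := by
    intro V hV hB
    have hmin := isMin_of_range hV.ov f i (h0 i) fun l => hB _ (Algebra.subset_adjoin ⟨l, rfl⟩)
    obtain ⟨t, ht, htz⟩ := hreg V hV
    rw [RV_eq hmin, ch_span_range] at ht htz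
    exact ⟨t, ht, fun y => htz _ ⟨y, rfl⟩⟩
  constructor
  · refine exists_chart (fun l => f l / f i) z fun V hV hB => ?_
    obtain ⟨t, ht, htz⟩ := key V hV hB
    exact exists_patch hV (fun l => f l / f i) hB z ht.par htz
  · obtain ⟨V, hV, hB⟩ := exists_zdim_ch (Algebra.adjoin k (Set.range fun l => f l / f i))
      (Subalgebra.fg_def.2 ⟨_, Set.finite_range _, rfl⟩)
    obtain ⟨t, ht, -⟩ := key V hV hB
    intro x
    obtain ⟨a, ha, b, hb, hb0, rfl⟩ := ht.frac x
    obtain ⟨a₁, ha₁, a₂, ha₂, h1, rfl⟩ := ha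
    obtain ⟨b₁, hb₁, b₂, hb₂, h2, rfl⟩ := hb
    have ha20 : a₂ ≠ 0 := ne_zero_of_val_one h1
    have hb20 : b₂ ≠ 0 := ne_zero_of_val_one h2
    have hb10 : b₁ ≠ 0 := by
      rintro rfl
      exact hb0 (zero_div _)
    exact ⟨a₁ * b₂, Subalgebra.mul_mem _ ha₁ hb₂, a₂ * b₁, Subalgebra.mul_mem _ ha₂ hb₁,
      mul_ne_zero ha20 hb10, by rw [div_div_div_eq]⟩

end Data

section Core

variable {k k' K K' : Type u} [Field k] [Field k'] [Field K] [Algebra k k'] [Algebra k K]
  [Field K'] [Algebra (k' ⊗[k] K) K'] [IsFractionRing (k' ⊗[k] K) K'] [Algebra k' K']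
  [IsScalarTower k' (k' ⊗[k] K) K']

omit [IsFractionRing (k' ⊗[k] K) K'] in
theorem jk_eq_algebraMap (a : k') : jk k k' K K' a = algebraMap k' K' a := by
  rw [IsScalarTower.algebraMap_apply k' (k' ⊗[k] K) K']
  rfl

/-- Transfer of a patch. -/
theorem patch_transfer {A : Subalgebra k k'} {L : Type u} [CommRing L] {ι : L →+* K'}
    {ψ : L →+* K} {κ : K →+* L} {α : A →+* L} {φ : A →ₐ[k] k} (hinj : Function.Injective ι)
    (hα : ∀ a : A, ι (α a) = algebraMap k' K' a) (hψα : ∀ a, ψ (α a) = algebraMap k K (φ a))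
    (hκ : ∀ x, ι (κ x) = jK k k' K K' x) (hψκ : ∀ x, ψ (κ x) = x)
    {σ : Type u} {n : ℕ} {ζ : Type u} (Q : Patch A σ n ζ) (b : σ → L) (z : ζ → K)
    (hok : (Q.map (A.val : A →+* k')).Ok (algebraMap k' K') (ι ∘ b) (jK k k' K K' ∘ z)) :
    (Q.map (φ : A →+* k)).Ok (algebraMap k K) (ψ ∘ b) z := by
  have e1 : (algebraMap k' K').comp (A.val : A →+* k') = ι.comp α :=
    RingHom.ext fun a => (hα a).symm
  have e2 : (algebraMap k K).comp (φ : A →+* k) = ψ.comp α :=
    RingHom.ext fun a => (hψα a).symm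
  rw [Patch.map_ok, e1] at hok
  have e3 : jK k k' K K' ∘ z = ι ∘ (κ ∘ z) := funext fun x => (hκ _).symm
  rw [e3] at hok
  have h1 := (hok.of_comp hinj).comp ψ
  rw [Patch.map_ok, e2]
  have e4 : ψ ∘ κ ∘ z = z := funext fun x => hψκ _
  rwa [e4] at h1

/-- **Descent, the core**: log resolution over `k'` of `K'` specialises to one over `k`. -/
theorem descent_core [IsAlgClosed k] [IsAlgClosed k'] {n : ℕ}
    (hK : (⊤ : IntermediateField k K).FG) (htr : Algebra.trdeg k K = n) (Z : Finset K)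
    {P' : Submodule k' K'} (hP' : IsModel P')
    (hreg : LogRegW n P' (jK k k' K K' '' (Z : Set K))) :
    ∃ P : Submodule k K, IsModel P ∧ LogRegW n P (Z : Set K) := by
  classical
  obtain ⟨σ, _, _, _, f, hf0, rfl⟩ := exists_family hP'
  obtain ⟨X, hX⟩ := hK
  let ζ : Type u := ↥Z
  let z : ζ → K := Subtype.val
  have hz : Set.range (jK k k' K K' ∘ z) = jK k k' K K' '' (Z : Set K) := by
    rw [Set.range_comp]
    congr 1
    exact Subtype.range_coe
  rw [← hz] at hreg
  have hdat := fun i => chart_data hf0 (jK k k' K K' ∘ z) hreg i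
  choose r P c hok hsum using fun i => (hdat i).1
  have hfrac := fun i => (hdat i).2
  have h1 : ∀ (i : σ) (x : ↥X), ∃ pa ps : MvPolynomial σ k',
      eval₂Hom (algebraMap k' K') (fun l => f l / f i) ps ≠ 0 ∧
      jK k k' K K' x * eval₂Hom (algebraMap k' K') (fun l => f l / f i) ps =
        eval₂Hom (algebraMap k' K') (fun l => f l / f i) pa := by
    intro i x
    obtain ⟨a, ha, s, hs, hs0, hx⟩ := hfrac i (jK k k' K K' x)
    obtain ⟨pa, hpa⟩ := exists_poly ha
    obtain ⟨ps, hps⟩ := exists_poly hs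
    refine ⟨pa, ps, ?_, ?_⟩
    · rw [hps]
      exact hs0
    · rw [hps, hpa, hx, div_mul_cancel₀ _ hs0]
  choose pa ps hps0 hpas using h1
  -- the field of definition
  have hC1 : ∃ C : Finset k', ∀ i a, LftP k C (P i a) := by
    choose C hC using fun (x : Σ i, Fin (r i)) => exists_lftP k (P x.1 x.2)
    exact ⟨Finset.univ.biUnion C, fun i a => (hC ⟨i, a⟩).mono
      (Finset.subset_biUnion_of_mem C (Finset.mem_univ (⟨i, a⟩ : Σ i, Fin (r i))))⟩
  obtain ⟨C₁, hC₁⟩ := hC1
  obtain ⟨C₂, hC₂⟩ := exists_lft_fam k fun (x : Σ i, Fin (r i)) => c x.1 x.2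
  obtain ⟨C₃, hC₃⟩ := exists_lft_fam k fun (x : σ × ↥X) => pa x.1 x.2
  obtain ⟨C₄, hC₄⟩ := exists_lft_fam k fun (x : σ × ↥X) => ps x.1 x.2
  let A : Subalgebra k k' := Algebra.adjoin k ((C₁ ∪ C₂ ∪ (C₃ ∪ C₄) : Finset k') : Set k')
  have hA : A.FG := ⟨_, rfl⟩
  have hCA : ((C₁ ∪ C₂ ∪ (C₃ ∪ C₄) : Finset k') : Set k') ⊆ A := Algebra.subset_adjoin
  rw [Finset.coe_union, Finset.coe_union, Finset.coe_union] at hCA
  have hCA1 : (C₁ : Set k') ⊆ A := fun x hx => hCA (Or.inl (Or.inl hx))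
  have hCA2 : (C₂ : Set k') ⊆ A := fun x hx => hCA (Or.inl (Or.inr hx))
  have hCA3 : (C₃ : Set k') ⊆ A := fun x hx => hCA (Or.inr (Or.inl hx))
  have hCA4 : (C₄ : Set k') ⊆ A := fun x hx => hCA (Or.inr (Or.inr hx))
  choose Q hQ using fun i a => hC₁ i a A hCA1
  choose d hd using fun i a => hC₂ ⟨i, a⟩ A hCA2
  choose qa hqa using fun i x => hC₃ (i, x) A hCA3
  choose qs hqs using fun i x => hC₄ (i, x) A hCA4
  obtain ⟨L, _, ι, ψ, κ, α, φ, hinj, hκ, hψκ, hα, hψα, hun⟩ :=
    exists_spec (K := K) (K' := K') A hA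
    (Finset.univ.image f ∪ Finset.univ.image fun x : σ × ↥X =>
      eval₂Hom (algebraMap k' K') (fun l => f l / f x.1) (ps x.1 x.2)) (by
    intro y hy
    rw [Finset.mem_union, Finset.mem_image, Finset.mem_image] at hy
    rcases hy with ⟨l, -, rfl⟩ | ⟨x, -, rfl⟩
    · exact hf0 l
    · exact hps0 _ _)
  have hα' : ∀ a : A, ι (α a) = algebraMap k' K' a := fun a => by rw [hα, jk_eq_algebraMap]
  have h2 : ∀ l, ∃ x : L, IsUnit x ∧ ι x = f l := fun l => hun _ (Finset.mem_union_left _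
    (Finset.mem_image_of_mem _ (Finset.mem_univ _)))
  choose uL huL hιu using h2
  choose vL hvL using fun l => (huL l).exists_right_inv
  let b : σ → σ → L := fun i l => uL l * vL i
  have hιb : ∀ i, ι ∘ b i = fun l => f l / f i := fun i => funext fun l => by
    change ι (uL l * vL i) = f l / f i
    have h3 : f i * ι (vL i) = 1 := by rw [← hιu, ← map_mul, hvL, map_one]
    rw [map_mul, hιu, eq_div_iff (hf0 i), mul_assoc, mul_comm (ι (vL i)), h3, mul_one]
  let g : σ → K := fun l => ψ (uL l)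
  have hg0 : ∀ l, g l ≠ 0 := fun l h => by
    have h3 : g l * ψ (vL l) = 1 := by
      change ψ (uL l) * ψ (vL l) = 1
      rw [← map_mul, hvL, map_one]
    rw [h, zero_mul] at h3
    exact zero_ne_one h3
  have hψb : ∀ i, ψ ∘ b i = fun l => g l / g i := fun i => funext fun l => by
    change ψ (uL l * vL i) = g l / g i
    have h3 : g i * ψ (vL i) = 1 := by
      change ψ (uL i) * ψ (vL i) = 1
      rw [← map_mul, hvL, map_one]
    rw [map_mul, eq_div_iff (hg0 i), mul_assoc, mul_comm (ψ (vL i)), h3, mul_one]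
  have e1 : (algebraMap k' K').comp (A.val : A →+* k') = ι.comp α :=
    RingHom.ext fun a => (hα' a).symm
  have e2 : (algebraMap k K).comp (φ : A →+* k) = ψ.comp α :=
    RingHom.ext fun a => (hψα a).symm
  have hevι : ∀ (i : σ) (q : MvPolynomial σ A) (p : MvPolynomial σ k'),
      MvPolynomial.map (A.val : A →+* k') q = p →
      ι (eval₂Hom α (b i) q) = eval₂Hom (algebraMap k' K') (fun l => f l / f i) p := by
    intro i q p hqp
    rw [← hqp, Patch.ev_map, Patch.ev_comp, e1, hιb]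
  have hevψ : ∀ (i : σ) (q : MvPolynomial σ A),
      ψ (eval₂Hom α (b i) q) = eval₂Hom (algebraMap k K) (fun l => g l / g i)
        (MvPolynomial.map (φ : A →+* k) q) := by
    intro i q
    rw [Patch.ev_map, Patch.ev_comp, e2, hψb]
  have hokk : ∀ i a, ((Q i a).map (φ : A →+* k)).Ok (algebraMap k K)
      (fun l => g l / g i) z := by
    intro i a
    rw [← hψb i]
    refine patch_transfer hinj hα' hψα hκ hψκ (Q i a) (b i) z ?_
    rw [hQ, hιb]
    exact hok i a
  have hsumk : ∀ i, ∑ a, eval₂Hom (algebraMap k K) (fun l => g l / g i)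
      (MvPolynomial.map (φ : A →+* k) (d i a)) *
      ((Q i a).map (φ : A →+* k)).hv (algebraMap k K) (fun l => g l / g i) = 1 := by
    intro i
    have h3 : ∑ a, eval₂Hom α (b i) (d i a) * (Q i a).hv α (b i) = 1 := by
      apply hinj
      rw [map_sum, map_one, ← hsum i]
      refine Finset.sum_congr rfl fun a _ => ?_
      rw [map_mul, hevι i _ _ (hd i a), Patch.hv_comp, hιb, ← e1, ← Patch.map_hv, hQ]
    have h4 := congrArg ψ h3
    rw [map_sum, map_one] at h4
    rw [← h4]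
    refine Finset.sum_congr rfl fun a _ => ?_
    rw [map_mul, hevψ, Patch.hv_comp, hψb, ← e2, ← Patch.map_hv]
  have hfrack : ∀ i, IsFrac (Algebra.adjoin k (Set.range fun l => g l / g i)) := by
    intro i
    refine isFrac_of_adjoin _ (X : Set K) hX fun x hx => ?_
    have h3 : κ x * eval₂Hom α (b i) (qs i ⟨x, hx⟩) = eval₂Hom α (b i) (qa i ⟨x, hx⟩) := by
      apply hinj
      rw [map_mul, hκ, hevι i _ _ (hqs i ⟨x, hx⟩), hevι i _ _ (hqa i ⟨x, hx⟩)]
      exact hpas i ⟨x, hx⟩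
    have h4 := congrArg ψ h3
    rw [map_mul, hψκ, hevψ, hevψ] at h4
    refine ⟨_, ev_mem _ _, _, ev_mem _ _, ?_, h4⟩
    obtain ⟨y, hy, hιy⟩ := hun (eval₂Hom (algebraMap k' K') (fun l => f l / f i)
      (ps i ⟨x, hx⟩)) (Finset.mem_union_right _ (Finset.mem_image.2
        ⟨(i, ⟨x, hx⟩), Finset.mem_univ _, rfl⟩))
    have h5 : y = eval₂Hom α (b i) (qs i ⟨x, hx⟩) :=
      hinj (by rw [hιy, hevι i _ _ (hqs i ⟨x, hx⟩)])
    rw [← hevψ, ← h5]
    exact (hy.map ψ).ne_zero
  refine ⟨Submodule.span k (Set.range g), isModel_range g hg0, fun V hV => ?_⟩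
  obtain ⟨i, hmin⟩ := exists_isMin_range hV.ov g hg0
  have hB : ∀ x ∈ Algebra.adjoin k (Set.range fun l => g l / g i), x ∈ V := by
    rw [← ch_span_range]
    exact ch_le hV.ov hmin
  obtain ⟨a, ha⟩ := exists_good (fun l => g l / g i) hB
    (fun a => (Q i a).map (φ : A →+* k)) _ (hsumk i)
  obtain ⟨t, ht, htz⟩ := patch_local hV ((Q i a).map (φ : A →+* k)) (fun l => g l / g i) hB z
    (hokk i a) ha (hfrack i) htr
  rw [RV_eq hmin, ch_span_range]
  exact ⟨t, ht, fun y hy => htz ⟨y, hy⟩⟩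

end Core

end Pool.Agent.TGD
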