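import Pool.Agent.Lib.TG_h3.Patch
import Pool.Agent.Lib.TG.Reg
import Pool.Agent.Lib.TG.ZDim
import Pool.Agent.Lib.ALL_h68.Reg

/-!
# TANK G, descent: a patch gives regular parameters
-/

set_option autoImplicit false

namespace Pool.Agent.TGD

open MvPolynomial
open Pool.Agent.LU2 (locV IsPar Mono IsFrac locV_inv locV_mem le_locV)
open Pool.Agent.TG
open Pool.Agent.ALL68 (gen_of_adjoin isPar_of_gen dim_ge algebraMap_val)

universe u

section Val

variable {K : Type u} [Field K] {V : ValuationSubring K}

theorem mul_lt_left {x y : K} (hx : V.valuation x < 1) (hy : y ∈ V) :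
    V.valuation (x * y) < 1 := by
  rw [map_mul]
  exact mul_lt_one_of_lt_of_le hx ((V.valuation_le_one_iff _).2 hy)

theorem mul_lt_right {x y : K} (hx : x ∈ V) (hy : V.valuation y < 1) :
    V.valuation (x * y) < 1 := by
  rw [mul_comm]
  exact mul_lt_left hy hx

theorem mem_of_lt {x : K} (hx : V.valuation x < 1) : x ∈ V :=
  (V.valuation_le_one_iff _).1 hx.le

theorem mem_of_eq {x : K} (hx : V.valuation x = 1) : x ∈ V :=
  (V.valuation_le_one_iff _).1 hx.le

theorem sum_lt {ι : Type*} (s : Finset ι) {f : ι → K} (h : ∀ i ∈ s, V.valuation (f i) < 1) :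
    V.valuation (∑ i ∈ s, f i) < 1 := by
  classical
  induction s using Finset.induction_on with
  | empty => simp
  | insert i s hi ih =>
    rw [Finset.sum_insert hi]
    exact V.valuation.map_add_lt (h i (Finset.mem_insert_self _ _))
      (ih fun j hj => h j (Finset.mem_insert_of_mem hj))

theorem eq_one_of_sub_lt {x y : K} (hx : V.valuation x = 1) (h : V.valuation (y - x) < 1) :
    V.valuation y = 1 := by
  have h1 : y = x + (y - x) := by ring
  rw [h1, Valuation.map_add_eq_of_lt_left V.valuation (by rwa [hx])]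
  exact hx

theorem residue_eq_iff {x y : V} :
    IsLocalRing.residue V x = IsLocalRing.residue V y ↔ V.valuation ((x : K) - y) < 1 := by
  rw [← sub_eq_zero, ← map_sub, IsLocalRing.residue_eq_zero_iff]
  exact (ValuationSubring.valuation_lt_one_iff V (x - y))

/-- Determinants of congruent matrices. -/
theorem det_congr {σ : Type*} [Fintype σ] [DecidableEq σ] {M J : Matrix σ σ K}
    (hM : ∀ l m, M l m ∈ V) (hJ : ∀ l m, J l m ∈ V)
    (h : ∀ l m, V.valuation (M l m - J l m) < 1) : V.valuation (M.det - J.det) < 1 := by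
  let M' : Matrix σ σ V := Matrix.of fun l m => ⟨M l m, hM l m⟩
  let J' : Matrix σ σ V := Matrix.of fun l m => ⟨J l m, hJ l m⟩
  have h1 : M'.map (IsLocalRing.residue V) = J'.map (IsLocalRing.residue V) := by
    ext l m
    exact residue_eq_iff.2 (h l m)
  have h2 : IsLocalRing.residue V M'.det = IsLocalRing.residue V J'.det := by
    rw [RingHom.map_det, RingHom.map_det]
    exact congrArg Matrix.det h1
  have h3 := residue_eq_iff.1 h2
  have h4 : ((M'.det : V) : K) = M.det := by
    have := RingHom.map_det (algebraMap V K) M'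
    exact this
  have h5 : ((J'.det : V) : K) = J.det := by
    have := RingHom.map_det (algebraMap V K) J'
    exact this
  rwa [h4, h5] at h3

end Val

section Diff

variable {k K : Type u} [Field k] [Field K] [Algebra k K] {V : ValuationSubring K}

theorem aeval_mem {τ : Type*} {R : Subalgebra k K} {a : τ → K} (ha : ∀ m, a m ∈ R)
    (p : MvPolynomial τ k) : aeval a p ∈ R := by
  induction p using MvPolynomial.induction_on with
  | C c =>
    rw [aeval_C]
    exact R.algebraMap_mem c
  | add p q hp hq =>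
    rw [map_add]
    exact R.add_mem hp hq
  | mul_X p i hp =>
    rw [map_mul, aeval_X]
    exact R.mul_mem hp (ha i)

theorem aeval_sub_lt {τ : Type*} {R : Subalgebra k K} (hR : ∀ x ∈ R, x ∈ V) {a : τ → K}
    (ha : ∀ m, a m ∈ R) {β : τ → k} (hβ : ∀ m, V.valuation (a m - algebraMap k K (β m)) < 1)
    (p : MvPolynomial τ k) : V.valuation (aeval a p - algebraMap k K (eval β p)) < 1 := by
  induction p using MvPolynomial.induction_on with
  | C c =>
    rw [aeval_C, eval_C, sub_self, map_zero]
    exact zero_lt_one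
  | add p q hp hq =>
    rw [map_add, map_add, map_add, add_sub_add_comm]
    exact V.valuation.map_add_lt hp hq
  | mul_X p i hp =>
    rw [map_mul, map_mul, map_mul, aeval_X, eval_X]
    have e : aeval a p * a i - algebraMap k K (eval β p) * algebraMap k K (β i) =
        (aeval a p - algebraMap k K (eval β p)) * a i +
          algebraMap k K (eval β p) * (a i - algebraMap k K (β i)) := by ring
    rw [e]
    exact V.valuation.map_add_lt (mul_lt_left hp (hR _ (ha i)))
      (mul_lt_right (hR _ (R.algebraMap_mem _)) (hβ i))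

/-- Difference quotients. -/
theorem diff_quot {τ : Type*} [Fintype τ] [DecidableEq τ] {R : Subalgebra k K}
    (hR : ∀ x ∈ R, x ∈ V) {a : τ → K} (ha : ∀ m, a m ∈ R) {β : τ → k}
    (hβ : ∀ m, V.valuation (a m - algebraMap k K (β m)) < 1) (p : MvPolynomial τ k) :
    ∃ q : τ → K, (∀ m, q m ∈ R) ∧
      aeval a p - algebraMap k K (eval β p) = ∑ m, q m * (a m - algebraMap k K (β m)) ∧
      ∀ m, V.valuation (q m - algebraMap k K (eval β (pderiv m p))) < 1 := by
  induction p using MvPolynomial.induction_on with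
  | C c =>
    refine ⟨0, fun _ => R.zero_mem, by simp, fun m => ?_⟩
    rw [pderiv_C, map_zero, map_zero]
    simp
  | add p q hp hq =>
    obtain ⟨x, hx, hxe, hxd⟩ := hp
    obtain ⟨y, hy, hye, hyd⟩ := hq
    refine ⟨fun m => x m + y m, fun m => R.add_mem (hx m) (hy m), ?_, fun m => ?_⟩
    · rw [map_add, map_add, map_add, add_sub_add_comm, hxe, hye, ← Finset.sum_add_distrib]
      exact Finset.sum_congr rfl fun m _ => by ring
    · rw [map_add, map_add, map_add, add_sub_add_comm]
      exact V.valuation.map_add_lt (hxd m) (hyd m)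
  | mul_X p i hp =>
    obtain ⟨x, hx, hxe, hxd⟩ := hp
    refine ⟨fun m => x m * a i + if m = i then algebraMap k K (eval β p) else 0,
      fun m => ?_, ?_, fun m => ?_⟩
    · refine R.add_mem (R.mul_mem (hx m) (ha i)) ?_
      split_ifs
      · exact R.algebraMap_mem _
      · exact R.zero_mem
    · have e : ∀ m, (x m * a i + if m = i then algebraMap k K (eval β p) else 0) *
          (a m - algebraMap k K (β m)) = x m * (a m - algebraMap k K (β m)) * a i +
            if m = i then algebraMap k K (eval β p) * (a m - algebraMap k K (β m)) else 0 := by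
        intro m
        split_ifs <;> ring
      rw [Finset.sum_congr rfl fun m _ => e m, Finset.sum_add_distrib, ← Finset.sum_mul,
        Finset.sum_ite_eq' Finset.univ i, if_pos (Finset.mem_univ i), ← hxe]
      rw [map_mul, map_mul, map_mul, aeval_X, eval_X]
      ring
    · have e2 : pderiv m (p * X i) = pderiv m p * X i + if m = i then p else 0 := by
        rw [pderiv_mul, pderiv_X]
        by_cases h : m = i
        · subst h
          simp
        · rw [if_neg h, Pi.single_eq_of_ne (Ne.symm h)]
          simp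
      rw [e2, map_add, map_add, map_mul, map_mul, eval_X, add_sub_add_comm]
      refine V.valuation.map_add_lt ?_ ?_
      · have e3 : x m * a i - algebraMap k K (eval β (pderiv m p)) * algebraMap k K (β i) =
            (x m - algebraMap k K (eval β (pderiv m p))) * a i +
            algebraMap k K (eval β (pderiv m p)) * (a i - algebraMap k K (β i)) := by ring
        rw [e3]
        exact V.valuation.map_add_lt (mul_lt_left (hxd m) (hR _ (ha i)))
          (mul_lt_right (hR _ (R.algebraMap_mem _)) (hβ i))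
      · split_ifs
        · rw [sub_self, map_zero]
          exact zero_lt_one
        · rw [map_zero, map_zero, sub_self, map_zero]
          exact zero_lt_one

end Diff

section Lin

variable {k K : Type u} [Field k] [Field K] [Algebra k K]

theorem det_mem {σ : Type*} [Fintype σ] [DecidableEq σ] {R : Subalgebra k K}
    {M : Matrix σ σ K} (hM : ∀ l m, M l m ∈ R) : M.det ∈ R := by
  let M' : Matrix σ σ R := Matrix.of fun l m => ⟨M l m, hM l m⟩
  have h4 : ((M'.det : R) : K) = M.det := RingHom.map_det (algebraMap R K) M'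
  rw [← h4]
  exact (M'.det).2

theorem cramer {σ : Type*} [Fintype σ] [DecidableEq σ] {R : Subalgebra k K}
    {M : Matrix σ σ K} (hM : ∀ l m, M l m ∈ R) {x y : σ → K}
    (hxy : ∀ l, ∑ m, M l m * x m = y l) :
    ∃ N : Matrix σ σ K, (∀ l m, N l m ∈ R) ∧ ∀ m, M.det * x m = ∑ l, N m l * y l := by
  let M' : Matrix σ σ R := Matrix.of fun l m => ⟨M l m, hM l m⟩
  have h1 : (M'.adjugate).map (algebraMap R K) = M.adjugate :=
    RingHom.map_adjugate (algebraMap R K) M'
  refine ⟨M.adjugate, fun l m => ?_, fun m => ?_⟩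
  · rw [← h1]
    exact (M'.adjugate l m).2
  · have h2 : M.adjugate.mulVec (M.mulVec x) = M.det • x := by
      rw [Matrix.mulVec_mulVec, Matrix.adjugate_mul, Matrix.smul_mulVec, Matrix.one_mulVec]
    have h3 : M.mulVec x = y := funext fun l => hxy l
    rw [h3] at h2
    exact (congrFun h2 m).symm

end Lin

section Local

variable {k K : Type u} [Field k] [Field K] [Algebra k K] {V : ValuationSubring K}

/-- Minimal number of generators. -/
theorem ne_of_gen (hk : ∀ c : k, algebraMap k K c ∈ V)
    (hres : ∀ f ∈ V, ∃ c : k, V.valuation (f - algebraMap k K c) < 1) (A : Subalgebra k K)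
    (hfg : A.FG) (hA : ∀ f ∈ A, f ∈ V) (hfrac : IsFrac A) {n : ℕ}
    (htr : Algebra.trdeg k K = n) {z : Fin n → K} (hz : ∀ i, z i ∈ locV V A)
    (hpos : ∀ i, V.valuation (z i) < 1)
    (hgen : ∀ f ∈ locV V A, V.valuation f < 1 →
      ∃ a : Fin n → K, (∀ i, a i ∈ locV V A) ∧ f = ∑ i, a i * z i) (i : Fin n) : z i ≠ 0 := by
  intro h0
  obtain _ | m := n
  · exact i.elim0
  have h1 : ringKrullDim (locV V A) ≤ m := by
    refine Pool.Agent.LU2.dim_le_of_gen V A hA hfg (z := fun j => z (i.succAbove j))
      (fun j => hz _) (fun j => hpos _) fun f hf hv => ?_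
    obtain ⟨a, ha, hfa⟩ := hgen f hf hv
    refine ⟨fun j => a (i.succAbove j), fun j => ha _, ?_⟩
    rw [hfa, Fin.sum_univ_succAbove _ i, h0, mul_zero, zero_add]
  have h2 := (dim_ge hk hres A hfg hA hfrac htr).trans h1
  have h3 : ((m + 1 : ℕ) : WithBot ℕ∞) ≤ ((m : ℕ) : WithBot ℕ∞) := h2
  have h4 : m + 1 ≤ m := by exact_mod_cast h3
  omega

variable {σ : Type u} [Fintype σ] [DecidableEq σ] {n : ℕ} {ζ : Type u} [Fintype ζ]

/-- **The local lemma**: a patch gives regular parameters. -/
theorem patch_local (hV : ZDim k V) (P : Patch k σ n ζ) (b : σ → K)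
    (hB : ∀ x ∈ Algebra.adjoin k (Set.range b), x ∈ V) (z : ζ → K)
    (hok : P.Ok (algebraMap k K) b z) (hh : V.valuation (P.hv (algebraMap k K) b) = 1)
    (hfrac : IsFrac (Algebra.adjoin k (Set.range b))) (htr : Algebra.trdeg k K = n) :
    ∃ t : Fin n → K, RegAt V (locV V (Algebra.adjoin k (Set.range b))) t ∧
      ∀ i, MonoZ V (locV V (Algebra.adjoin k (Set.range b))) t (z i) := by
  classical
  have hfg : (Algebra.adjoin k (Set.range b)).FG :=
    Subalgebra.fg_def.2 ⟨_, Set.finite_range b, rfl⟩
  set B := Algebra.adjoin k (Set.range b) with hBdef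
  have hR := locV_mem hB
  set R := locV V B with hRdef
  have hBR : B ≤ R := le_locV B
  have hb : ∀ l, b l ∈ B := fun l => Algebra.subset_adjoin ⟨l, rfl⟩
  have hev : ∀ p : MvPolynomial σ k, eval₂Hom (algebraMap k K) b p ∈ B := fun p =>
    aeval_mem hb p
  have hτ : ∀ j, P.tau (algebraMap k K) b j ∈ B := fun j => hev _
  have hpt : ∀ x, P.pt (algebraMap k K) b x ∈ B := by
    rintro (l | j)
    · exact hb l
    · exact hτ j
  choose β hβ using fun l => hV.res _ (hB _ (hb l))
  choose γ hγ using fun j => hV.res _ (hB _ (hτ j))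
  set τ := P.tau (algebraMap k K) b with hτdef
  set β' : σ ⊕ Fin n → k := Sum.elim β γ with hβ'def
  have hβ' : ∀ x, V.valuation (P.pt (algebraMap k K) b x - algebraMap k K (β' x)) < 1 := by
    rintro (l | j)
    · exact hβ l
    · exact hγ j
  have hinv : ∀ f ∈ R, V.valuation f = 1 → f⁻¹ ∈ R := fun f hf h1 => locV_inv hf h1
  let t : Fin n → K := fun j => τ j - algebraMap k K (γ j)
  have htR : ∀ j, t j ∈ R := fun j => R.sub_mem (hBR (hτ j)) (R.algebraMap_mem _)
  have htpos : ∀ j, V.valuation (t j) < 1 := hγ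
  -- difference quotients of the equations
  have hdq := fun l => diff_quot (V := V) hR (fun x => hBR (hpt x)) hβ' (P.Φ l)
  choose q hqR hqe hqd using hdq
  have hz0 : ∀ l, ∑ x, q l x * (P.pt (algebraMap k K) b x - algebraMap k K (β' x)) = 0 := by
    intro l
    have h1 : aeval (P.pt (algebraMap k K) b) (P.Φ l) = 0 := hok.eq l
    have h2 := aeval_sub_lt (V := V) hR (fun x => hBR (hpt x)) hβ' (P.Φ l)
    have h3 : eval β' (P.Φ l) = 0 := by
      by_contra hc
      rw [h1, zero_sub, Valuation.map_neg] at h2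
      have h4 := algebraMap_val hV.ov hc
      rw [h4] at h2
      exact lt_irrefl _ h2
    rw [← hqe l, h1, h3, map_zero, sub_zero]
  let M : Matrix σ σ K := Matrix.of fun l m => q l (Sum.inl m)
  have hMR : ∀ l m, M l m ∈ R := fun l m => hqR l _
  have hMx : ∀ l, ∑ m, M l m * (b m - algebraMap k K (β m)) =
      - ∑ j, q l (Sum.inr j) * t j := by
    intro l
    have h1 := hz0 l
    rw [Fintype.sum_sum_type] at h1
    exact eq_neg_of_add_eq_zero_left h1
  obtain ⟨N, hNR, hN⟩ := cramer hMR hMx
  have hdet : V.valuation M.det = 1 := by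
    have hjac : ∀ l m, P.jac (algebraMap k K) b l m ∈ R := fun l m =>
      aeval_mem (fun x => hBR (hpt x)) _
    have h1 : V.valuation (M.det - (P.jac (algebraMap k K) b).det) < 1 := by
      refine det_congr (fun l m => hR _ (hMR l m)) (fun l m => hR _ (hjac l m)) fun l m => ?_
      have h2 := hqd l (Sum.inl m)
      have h3 := aeval_sub_lt (V := V) hR (fun x => hBR (hpt x)) hβ'
        (pderiv (Sum.inl m) (P.Φ l))
      have h4 : M l m - P.jac (algebraMap k K) b l m =
          (q l (Sum.inl m) - algebraMap k K (eval β' (pderiv (Sum.inl m) (P.Φ l)))) -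
          (aeval (P.pt (algebraMap k K) b) (pderiv (Sum.inl m) (P.Φ l)) -
            algebraMap k K (eval β' (pderiv (Sum.inl m) (P.Φ l)))) := by
        have h5 : P.jac (algebraMap k K) b l m =
          aeval (P.pt (algebraMap k K) b) (pderiv (Sum.inl m) (P.Φ l)) := rfl
        rw [h5]
        change q l (Sum.inl m) - _ = _
        ring
      rw [h4]
      exact V.valuation.map_sub_lt h2 h3
    refine eq_one_of_sub_lt ?_ h1
    have h2 : V.valuation (P.jac (algebraMap k K) b).det ≤ 1 :=
      (V.valuation_le_one_iff _).2 (hR _ (det_mem hjac))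
    refine le_antisymm h2 ?_
    rw [Patch.hv, map_mul] at hh
    rw [← hh]
    refine mul_le_of_le_one_right' ?_
    exact (V.valuation_le_one_iff _).2 (hB _ (B.prod_mem fun i _ => B.mul_mem (hev _) (hev _)))
  have hgen : ∀ f ∈ R, V.valuation f < 1 →
      ∃ a : Fin n → K, (∀ i, a i ∈ R) ∧ f = ∑ i, a i * t i := by
    refine gen_of_adjoin hV.ov hB htR htpos ?_
    rintro _ ⟨m, rfl⟩
    have hdi : (M.det)⁻¹ ∈ R := hinv _ (det_mem hMR) hdet
    have hd0 : M.det ≠ 0 := ne_zero_of_val_one hdet
    refine ⟨β m, fun j => -(M.det)⁻¹ * ∑ l, N m l * q l (Sum.inr j), fun j => ?_, ?_⟩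
    · exact R.mul_mem (R.neg_mem hdi) (R.sum_mem fun l _ => R.mul_mem (hNR _ _) (hqR _ _))
    · have h1 := hN m
      have h2 : b m - algebraMap k K (β m) = (M.det)⁻¹ *
          ∑ l, N m l * (- ∑ j, q l (Sum.inr j) * t j) := by
        rw [← h1, ← mul_assoc, inv_mul_cancel₀ hd0, one_mul]
      have h3 : ∑ j, -(M.det)⁻¹ * (∑ l, N m l * q l (Sum.inr j)) * t j = (M.det)⁻¹ *
          ∑ l, N m l * (- ∑ j, q l (Sum.inr j) * t j) := by
        have h4 : ∀ l, N m l * (- ∑ j, q l (Sum.inr j) * t j) =
            ∑ j, - (N m l * q l (Sum.inr j) * t j) := fun l => by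
          rw [Finset.sum_neg_distrib, mul_neg, Finset.mul_sum]
          congr 1
          exact Finset.sum_congr rfl fun j _ => by ring
        rw [Finset.sum_congr rfl fun l _ => h4 l, Finset.sum_comm, Finset.mul_sum]
        refine Finset.sum_congr rfl fun j _ => ?_
        rw [Finset.sum_neg_distrib, ← Finset.sum_mul]
        ring
      rw [h3, ← h2]
      ring
  have hne := ne_of_gen hV.ov hV.res B hfg hB hfrac htr htR htpos hgen
  have hpar : IsPar V R t := isPar_of_gen hV.ov hV.res B hfg hB hfrac htr htR hne htpos hgen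
  refine ⟨t, ⟨hpar, ⟨B, hfg, rfl⟩, fun f => ?_⟩, fun i => ?_⟩
  · obtain ⟨a, ha, c, hc, hc0, rfl⟩ := hfrac f
    exact ⟨a, hBR ha, c, hBR hc, hc0, rfl⟩
  · -- the monomial
    have hτ1 : ∀ j, γ j ≠ 0 → V.valuation (τ j) = 1 := fun j hj =>
      eq_one_of_sub_lt (algebraMap_val hV.ov hj) (hγ j)
    have hτt : ∀ j, γ j = 0 → τ j = t j := fun j hj => by
      change τ j = τ j - algebraMap k K (γ j)
      rw [hj, map_zero, sub_zero]
    have hτ0 : ∀ j, τ j ≠ 0 := fun j => by
      by_cases hj : γ j = 0
      · rw [hτt j hj]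
        exact hne j
      · exact ne_zero_of_val_one (hτ1 j hj)
    have hprod : V.valuation (∏ i, (eval₂Hom (algebraMap k K) b (P.u i) *
        eval₂Hom (algebraMap k K) b (P.w i))) = 1 := by
      refine le_antisymm ((V.valuation_le_one_iff _).2
        (hB _ (B.prod_mem fun i _ => B.mul_mem (hev _) (hev _)))) ?_
      rw [Patch.hv, map_mul] at hh
      rw [← hh]
      refine mul_le_of_le_one_left' ?_
      exact (V.valuation_le_one_iff _).2 (hR _ (det_mem fun l m =>
        aeval_mem (fun x => hBR (hpt x)) _))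
    have huw : V.valuation (eval₂Hom (algebraMap k K) b (P.u i)) = 1 ∧
        V.valuation (eval₂Hom (algebraMap k K) b (P.w i)) = 1 := by
      have h1 : V.valuation (eval₂Hom (algebraMap k K) b (P.u i) *
          eval₂Hom (algebraMap k K) b (P.w i)) = 1 := by
        refine le_antisymm ((V.valuation_le_one_iff _).2 (hB _ (B.mul_mem (hev _) (hev _)))) ?_
        rw [← Finset.mul_prod_erase _ _ (Finset.mem_univ i), map_mul] at hprod
        rw [← hprod]
        refine mul_le_of_le_one_right' ?_
        exact (V.valuation_le_one_iff _).2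
          (hB _ (B.prod_mem fun i _ => B.mul_mem (hev _) (hev _)))
      rw [map_mul] at h1
      have h2 := (V.valuation_le_one_iff _).2 (hB _ (hev (P.u i)))
      have h3 := (V.valuation_le_one_iff _).2 (hB _ (hev (P.w i)))
      constructor
      · refine le_antisymm h2 ?_
        rw [← h1]
        exact mul_le_of_le_one_right' h3
      · refine le_antisymm h3 ?_
        rw [← h1]
        exact mul_le_of_le_one_left' h2
    obtain ⟨hu1, hw1⟩ := huw
    have hzi := hok.mono i
    set u₁ := eval₂Hom (algebraMap k K) b (P.u i)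
    set w₁ := eval₂Hom (algebraMap k K) b (P.w i)
    have hw0 : w₁ ≠ 0 := ne_zero_of_val_one hw1
    have hpn0 : ∏ j, τ j ^ P.en i j ≠ 0 := Finset.prod_ne_zero_iff.2 fun j _ =>
      pow_ne_zero _ (hτ0 j)
    refine ⟨fun j => if γ j = 0 then (P.ep i j : ℤ) - P.en i j else 0,
      (u₁ * w₁⁻¹) * ∏ j, (if γ j = 0 then 1 else τ j ^ ((P.ep i j : ℤ) - P.en i j)), ?_, ?_, ?_⟩
    · refine R.mul_mem (R.mul_mem (hBR (hev _)) (hinv _ (hBR (hev _)) hw1))
        (R.prod_mem fun j _ => ?_)
      split_ifs with hj
      · exact R.one_mem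
      · rcases Int.eq_nat_or_neg ((P.ep i j : ℤ) - P.en i j) with ⟨m, hm | hm⟩
        · rw [hm, zpow_natCast]
          exact R.pow_mem (hBR (hτ j)) m
        · rw [hm, zpow_neg, zpow_natCast, ← inv_pow]
          exact R.pow_mem (hinv _ (hBR (hτ j)) (hτ1 j hj)) m
    · rw [map_mul, map_mul, map_inv₀, hu1, hw1, inv_one, mul_one, one_mul, map_prod]
      refine Finset.prod_eq_one fun j _ => ?_
      split_ifs with hj
      · exact map_one _
      · rw [map_zpow₀, hτ1 j hj, one_zpow]
    · have h1 : (∏ j, t j ^ (if γ j = 0 then (P.ep i j : ℤ) - P.en i j else 0)) *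
          ((u₁ * w₁⁻¹) * ∏ j, (if γ j = 0 then 1 else τ j ^ ((P.ep i j : ℤ) - P.en i j))) =
          (u₁ * w₁⁻¹) * ∏ j, τ j ^ ((P.ep i j : ℤ) - P.en i j) := by
        rw [mul_left_comm, ← Finset.prod_mul_distrib]
        congr 1
        refine Finset.prod_congr rfl fun j _ => ?_
        by_cases hj : γ j = 0
        · rw [if_pos hj, if_pos hj, mul_one, hτt j hj]
        · rw [if_neg hj, if_neg hj, zpow_zero, one_mul]
      rw [h1]
      have h2 : ∏ j, τ j ^ ((P.ep i j : ℤ) - P.en i j) =
          (∏ j, τ j ^ P.ep i j) / ∏ j, τ j ^ P.en i j := by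
        rw [← Finset.prod_div_distrib]
        refine Finset.prod_congr rfl fun j _ => ?_
        rw [zpow_sub₀ (hτ0 j), zpow_natCast, zpow_natCast]
      rw [h2]
      have h3 : z i = (u₁ * ∏ j, τ j ^ P.ep i j) / (w₁ * ∏ j, τ j ^ P.en i j) := by
        rw [eq_div_iff (mul_ne_zero hw0 hpn0)]
        exact hzi
      rw [h3, mul_div_mul_comm]
      ring

end Local

end Pool.Agent.TGD
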