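import Mathlib

/-!
# TANK G, descent: patches (explicit certificates of regularity) and their functoriality
-/

set_option autoImplicit false

namespace Pool.Agent.TGD

open MvPolynomial

universe u v

/-- The data of a patch over the base ring `A`. -/
structure Patch (A : Type u) [CommRing A] (σ : Type u) (n : ℕ) (ζ : Type u) where
  /-- parameters -/
  T : Fin n → MvPolynomial σ A
  /-- equations -/
  Φ : σ → MvPolynomial (σ ⊕ Fin n) A
  /-- numerators of units -/
  u : ζ → MvPolynomial σ A
  /-- denominators of units -/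
  w : ζ → MvPolynomial σ A
  /-- positive exponents -/
  ep : ζ → Fin n → ℕ
  /-- negative exponents -/
  en : ζ → Fin n → ℕ

namespace Patch

variable {A B E E' : Type u} [CommRing A] [CommRing B] [CommRing E] [CommRing E'] {σ : Type u}
  {n : ℕ} {ζ : Type u} (P : Patch A σ n ζ)

/-- The parameters. -/
noncomputable def tau (f : A →+* E) (b : σ → E) (j : Fin n) : E := eval₂Hom f b (P.T j)

/-- The point. -/
noncomputable def pt (f : A →+* E) (b : σ → E) : σ ⊕ Fin n → E := Sum.elim b (P.tau f b)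

/-- The Jacobian matrix. -/
noncomputable def jac [DecidableEq σ] (f : A →+* E) (b : σ → E) : Matrix σ σ E :=
  Matrix.of fun l m => eval₂Hom f (P.pt f b) (pderiv (Sum.inl m) (P.Φ l))

/-- The function whose nonvanishing defines the patch. -/
noncomputable def hv [Fintype σ] [DecidableEq σ] [Fintype ζ] (f : A →+* E) (b : σ → E) : E :=
  (P.jac f b).det * ∏ i, (eval₂Hom f b (P.u i) * eval₂Hom f b (P.w i))

/-- The identities. -/
structure Ok (f : A →+* E) (b : σ → E) (z : ζ → E) : Prop where
  eq : ∀ l, eval₂Hom f (P.pt f b) (P.Φ l) = 0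
  mono : ∀ i, z i * (eval₂Hom f b (P.w i) * ∏ j, P.tau f b j ^ P.en i j) =
    eval₂Hom f b (P.u i) * ∏ j, P.tau f b j ^ P.ep i j

/-- Base change of the data. -/
noncomputable def map (φ : A →+* B) : Patch B σ n ζ where
  T j := MvPolynomial.map φ (P.T j)
  Φ l := MvPolynomial.map φ (P.Φ l)
  u i := MvPolynomial.map φ (P.u i)
  w i := MvPolynomial.map φ (P.w i)
  ep := P.ep
  en := P.en

theorem ev_comp {τ : Type*} (θ : E →+* E') (f : A →+* E) (b : τ → E) (p : MvPolynomial τ A) :
    θ (eval₂Hom f b p) = eval₂Hom (θ.comp f) (θ ∘ b) p :=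
  eval₂_comp_left θ f b p

theorem ev_map {τ : Type*} (φ : A →+* B) (f : B →+* E) (b : τ → E) (p : MvPolynomial τ A) :
    eval₂Hom f b (MvPolynomial.map φ p) = eval₂Hom (f.comp φ) b p :=
  eval₂_map φ b f p

theorem tau_comp (θ : E →+* E') (f : A →+* E) (b : σ → E) (j : Fin n) :
    θ (P.tau f b j) = P.tau (θ.comp f) (θ ∘ b) j := ev_comp _ _ _ _

theorem pt_comp (θ : E →+* E') (f : A →+* E) (b : σ → E) :
    θ ∘ P.pt f b = P.pt (θ.comp f) (θ ∘ b) := by
  funext x
  rcases x with l | j
  · rfl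
  · exact P.tau_comp θ f b j

theorem jac_comp [DecidableEq σ] (θ : E →+* E') (f : A →+* E) (b : σ → E) :
    (P.jac f b).map θ = P.jac (θ.comp f) (θ ∘ b) := by
  ext l m
  simp only [jac, Matrix.map_apply, Matrix.of_apply]
  rw [ev_comp, pt_comp]

theorem hv_comp [Fintype σ] [DecidableEq σ] [Fintype ζ] (θ : E →+* E') (f : A →+* E)
    (b : σ → E) : θ (P.hv f b) = P.hv (θ.comp f) (θ ∘ b) := by
  rw [hv, hv, map_mul, RingHom.map_det, map_prod]
  congr 1
  · congr 1
    exact P.jac_comp θ f b
  · refine Finset.prod_congr rfl fun i _ => ?_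
    rw [map_mul, ev_comp, ev_comp]

variable {P} in
theorem Ok.comp {f : A →+* E} {b : σ → E} {z : ζ → E} (h : P.Ok f b z) (θ : E →+* E') :
    P.Ok (θ.comp f) (θ ∘ b) (θ ∘ z) where
  eq l := by rw [← pt_comp, ← ev_comp, h.eq, map_zero]
  mono i := by
    have := congrArg θ (h.mono i)
    simp only [map_mul, map_prod, map_pow, tau_comp, ev_comp] at this
    exact this

variable {P} in
theorem Ok.of_comp {f : A →+* E} {b : σ → E} {z : ζ → E} {θ : E →+* E'}
    (hθ : Function.Injective θ) (h : P.Ok (θ.comp f) (θ ∘ b) (θ ∘ z)) : P.Ok f b z where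
  eq l := hθ (by rw [ev_comp, pt_comp, h.eq, map_zero])
  mono i := hθ (by
    simp only [map_mul, map_prod, map_pow, tau_comp, ev_comp]
    exact h.mono i)

theorem map_tau (φ : A →+* B) (f : B →+* E) (b : σ → E) (j : Fin n) :
    (P.map φ).tau f b j = P.tau (f.comp φ) b j := ev_map _ _ _ _

theorem map_pt (φ : A →+* B) (f : B →+* E) (b : σ → E) :
    (P.map φ).pt f b = P.pt (f.comp φ) b := by
  funext x
  rcases x with l | j
  · rfl
  · exact P.map_tau φ f b j

theorem map_jac [DecidableEq σ] (φ : A →+* B) (f : B →+* E) (b : σ → E) :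
    (P.map φ).jac f b = P.jac (f.comp φ) b := by
  ext l m
  simp only [jac, Matrix.of_apply]
  rw [map_pt]
  change eval₂Hom f _ (pderiv (Sum.inl m) (MvPolynomial.map φ (P.Φ l))) = _
  rw [pderiv_map, ev_map]

theorem map_hv [Fintype σ] [DecidableEq σ] [Fintype ζ] (φ : A →+* B) (f : B →+* E)
    (b : σ → E) : (P.map φ).hv f b = P.hv (f.comp φ) b := by
  rw [hv, hv, map_jac]
  congr 1
  refine Finset.prod_congr rfl fun i _ => ?_
  rw [← ev_map, ← ev_map]
  rfl

theorem map_ok (φ : A →+* B) (f : B →+* E) (b : σ → E) (z : ζ → E) :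
    (P.map φ).Ok f b z ↔ P.Ok (f.comp φ) b z := by
  constructor
  · intro h
    refine ⟨fun l => ?_, fun i => ?_⟩
    · have := h.eq l
      rw [map_pt] at this
      change eval₂Hom f _ (MvPolynomial.map φ (P.Φ l)) = 0 at this
      rwa [ev_map] at this
    · have := h.mono i
      simp only [map_tau] at this
      change z i * (eval₂Hom f _ (MvPolynomial.map φ (P.w i)) * ∏ j, _ ^ P.en i j) =
        eval₂Hom f _ (MvPolynomial.map φ (P.u i)) * ∏ j, _ ^ P.ep i j at this
      rwa [ev_map, ev_map] at this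
  · intro h
    refine ⟨fun l => ?_, fun i => ?_⟩
    · rw [map_pt]
      change eval₂Hom f _ (MvPolynomial.map φ (P.Φ l)) = 0
      rw [ev_map]
      exact h.eq l
    · simp only [map_tau]
      change z i * (eval₂Hom f _ (MvPolynomial.map φ (P.w i)) * ∏ j, _ ^ P.en i j) =
        eval₂Hom f _ (MvPolynomial.map φ (P.u i)) * ∏ j, _ ^ P.ep i j
      rw [ev_map, ev_map]
      exact h.mono i

end Patch

/-! ## Fields of definition -/

section Lift

variable {k k' : Type u} [Field k] [Field k'] [Algebra k k']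

/-- The polynomial `p` is defined over each subalgebra that contains `C`. -/
def Lft (k : Type u) {k' : Type u} [Field k] [Field k'] [Algebra k k'] (C : Finset k') {τ : Type u}
    (p : MvPolynomial τ k') : Prop :=
  ∀ A : Subalgebra k k', (C : Set k') ⊆ A → ∃ q : MvPolynomial τ A,
    MvPolynomial.map (A.val : A →+* k') q = p

theorem Lft.mono {C C' : Finset k'} (h : C ⊆ C') {τ : Type u} {p : MvPolynomial τ k'}
    (hp : Lft k C p) : Lft k C' p := fun A hA => hp A fun _ hx => hA (h hx)

variable (k) in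
theorem exists_lft {τ : Type u} (p : MvPolynomial τ k') : ∃ C : Finset k', Lft k C p := by
  classical
  refine ⟨p.support.image fun m => p.coeff m, fun A hA => ?_⟩
  have h1 : ∀ m ∈ p.support, p.coeff m ∈ A := fun m hm => hA (Finset.mem_coe.2
    (Finset.mem_image_of_mem _ hm))
  refine ⟨∑ m ∈ p.support.attach, monomial m.1 (⟨p.coeff m.1, h1 m.1 m.2⟩ : A), ?_⟩
  rw [map_sum]
  conv_rhs => rw [p.as_sum]
  rw [← Finset.sum_attach p.support]
  refine Finset.sum_congr rfl fun m _ => ?_
  rw [map_monomial]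
  rfl

variable (k) in
theorem exists_lft_fam {I : Type*} [Finite I] {τ : Type u} (p : I → MvPolynomial τ k') :
    ∃ C : Finset k', ∀ i, Lft k C (p i) := by
  classical
  have := Fintype.ofFinite I
  choose C hC using fun i => exists_lft k (p i)
  exact ⟨Finset.univ.biUnion C, fun i => (hC i).mono
    (Finset.subset_biUnion_of_mem C (Finset.mem_univ i))⟩

/-- A patch is defined over each subalgebra that contains `C`. -/
def LftP (k : Type u) {k' : Type u} [Field k] [Field k'] [Algebra k k'] (C : Finset k')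
    {σ : Type u} {n : ℕ} {ζ : Type u} (P : Patch k' σ n ζ) : Prop :=
  ∀ A : Subalgebra k k', (C : Set k') ⊆ A → ∃ Q : Patch A σ n ζ,
    Q.map (A.val : A →+* k') = P

theorem LftP.mono {C C' : Finset k'} (h : C ⊆ C') {σ : Type u} {n : ℕ} {ζ : Type u}
    {P : Patch k' σ n ζ} (hp : LftP k C P) : LftP k C' P := fun A hA => hp A fun _ hx => hA (h hx)

variable (k) in
theorem exists_lftP {σ : Type u} [Finite σ] {n : ℕ} {ζ : Type u} [Finite ζ]
    (P : Patch k' σ n ζ) : ∃ C : Finset k', LftP k C P := by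
  classical
  obtain ⟨C₁, h1⟩ := exists_lft_fam k P.T
  obtain ⟨C₂, h2⟩ := exists_lft_fam k P.Φ
  obtain ⟨C₃, h3⟩ := exists_lft_fam k P.u
  obtain ⟨C₄, h4⟩ := exists_lft_fam k P.w
  refine ⟨C₁ ∪ C₂ ∪ (C₃ ∪ C₄), fun A hA => ?_⟩
  rw [Finset.coe_union, Finset.coe_union, Finset.coe_union] at hA
  choose T hT using fun j => h1 j A fun x hx => hA (Or.inl (Or.inl hx))
  choose F hF using fun j => h2 j A fun x hx => hA (Or.inl (Or.inr hx))
  choose u hu using fun j => h3 j A fun x hx => hA (Or.inr (Or.inl hx))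
  choose w hw using fun j => h4 j A fun x hx => hA (Or.inr (Or.inr hx))
  refine ⟨⟨T, F, u, w, P.ep, P.en⟩, ?_⟩
  obtain ⟨T', F', u', w', ep, en⟩ := P
  simp only [Patch.map, Patch.mk.injEq]
  exact ⟨funext hT, funext hF, funext hu, funext hw, trivial, trivial⟩

end Lift

end Pool.Agent.TGD
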