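import Pool.Agent.Lib.TG_h3.Loc

/-!
# TANK G, descent: regular parameters give a patch
-/

set_option autoImplicit false

namespace Pool.Agent.TGD

open MvPolynomial
open Pool.Agent.LU2 (locV IsPar Mono IsFrac locV_inv locV_mem le_locV)
open Pool.Agent.TG

universe u

section Poly

variable {k K : Type u} [Field k] [Field K] [Algebra k K]

theorem exists_poly {σ : Type*} {b : σ → K} {x : K} (hx : x ∈ Algebra.adjoin k (Set.range b)) :
    ∃ p : MvPolynomial σ k, eval₂Hom (algebraMap k K) b p = x := by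
  rw [Algebra.adjoin_range_eq_range_aeval] at hx
  exact hx

theorem ev_mem {σ : Type*} (b : σ → K) (p : MvPolynomial σ k) :
    eval₂Hom (algebraMap k K) b p ∈ Algebra.adjoin k (Set.range b) :=
  aeval_mem (R := Algebra.adjoin k (Set.range b)) (fun l => Algebra.subset_adjoin ⟨l, rfl⟩) p

theorem ev_rename {σ : Type*} {n : ℕ} (b : σ → K) (τ : Fin n → K) (p : MvPolynomial σ k) :
    eval₂Hom (algebraMap k K) (Sum.elim b τ) (rename Sum.inl p) =
      eval₂Hom (algebraMap k K) b p := by
  rw [eval₂Hom_rename]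
  rfl

end Poly

section Prod

variable {k K : Type u} [Field k] [Field K] [Algebra k K] {V : ValuationSubring K}
  {σ : Type u} [Fintype σ] [DecidableEq σ] {n : ℕ} {ζ : Type u} [Fintype ζ]

/-- Regular parameters give a patch. -/
theorem exists_patch (hV : ZDim k V) (b : σ → K)
    (hB : ∀ x ∈ Algebra.adjoin k (Set.range b), x ∈ V) (z : ζ → K)
    {t : Fin n → K} (ht : IsPar V (locV V (Algebra.adjoin k (Set.range b))) t)
    (hm : ∀ i, MonoZ V (locV V (Algebra.adjoin k (Set.range b))) t (z i)) :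
    ∃ P : Patch k σ n ζ, P.Ok (algebraMap k K) b z ∧
      V.valuation (P.hv (algebraMap k K) b) = 1 := by
  classical
  have hbB : ∀ l, b l ∈ Algebra.adjoin k (Set.range b) := fun l => Algebra.subset_adjoin ⟨l, rfl⟩
  have hpoly : ∀ x ∈ Algebra.adjoin k (Set.range b), ∃ p : MvPolynomial σ k,
    eval₂Hom (algebraMap k K) b p = x := fun x hx => exists_poly hx
  have hevm := ev_mem (k := k) b
  set B := Algebra.adjoin k (Set.range b) with hBdef
  set R := locV V B with hRdef
  have hBR : B ≤ R := le_locV B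
  have hR : ∀ x ∈ R, x ∈ V := locV_mem hB
  have hinv : ∀ f ∈ R, V.valuation f = 1 → f⁻¹ ∈ R := fun f hf h1 => locV_inv hf h1
  -- the parameters
  have h1 : ∀ j, ∃ a ∈ B, ∃ s ∈ B, V.valuation s = 1 ∧ t j = a / s := fun j => ht.mem j
  choose a ha s hs hs1 hts using h1
  have hs0 : ∀ j, s j ≠ 0 := fun j => ne_zero_of_val_one (hs1 j)
  have hta : ∀ j, t j * s j = a j := fun j => by rw [hts j, div_mul_cancel₀ _ (hs0 j)]
  have ha1 : ∀ j, V.valuation (a j) < 1 := fun j => by
    rw [← hta j]
    exact mul_lt_left (ht.pos j) (hB _ (hs j))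
  have ha0 : ∀ j, a j ≠ 0 := fun j => by
    rw [← hta j]
    exact mul_ne_zero (ht.ne j) (hs0 j)
  -- the equations
  choose β hβ using fun l => hV.res _ (hB _ (hbB l))
  have h2 : ∀ l, ∃ c : Fin n → K, (∀ j, c j ∈ R) ∧ b l - algebraMap k K (β l) =
      ∑ j, c j * a j := by
    intro l
    obtain ⟨c, hc, hce⟩ := ht.gen _ (R.sub_mem (hBR (hbB l)) (R.algebraMap_mem _)) (hβ l)
    refine ⟨fun j => c j * (s j)⁻¹, fun j => R.mul_mem (hc j) (hinv _ (hBR (hs j)) (hs1 j)), ?_⟩
    rw [hce]
    refine Finset.sum_congr rfl fun j _ => ?_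
    rw [← hta j, mul_assoc, mul_comm (t j), inv_mul_cancel_left₀ (hs0 j)]
  choose c hc hce using h2
  have h3 : ∀ l j, ∃ x ∈ B, ∃ y ∈ B, V.valuation y = 1 ∧ c l j = x / y := fun l j => hc l j
  choose x hx y hy hy1 hcxy using h3
  have hy0 : ∀ l j, y l j ≠ 0 := fun l j => ne_zero_of_val_one (hy1 l j)
  let S : K := ∏ l, ∏ j, y l j
  have hSB : S ∈ B := B.prod_mem fun l _ => B.prod_mem fun j _ => hy l j
  have hS1 : V.valuation S = 1 := by
    rw [map_prod]
    refine Finset.prod_eq_one fun l _ => ?_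
    rw [map_prod]
    exact Finset.prod_eq_one fun j _ => hy1 l j
  have h4 : ∀ l j, S * c l j ∈ B := by
    intro l j
    have e : S = y l j * ((∏ j' ∈ Finset.univ.erase j, y l j') *
        ∏ l' ∈ Finset.univ.erase l, ∏ j', y l' j') := by
      change (∏ l, ∏ j, y l j) = _
      rw [← Finset.mul_prod_erase _ _ (Finset.mem_univ l),
        ← Finset.mul_prod_erase (Finset.univ) (fun j => y l j) (Finset.mem_univ j), mul_assoc]
    have e' : ∀ Q : K, y l j * Q * (x l j / y l j) = x l j * Q := fun Q => by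
      field_simp [hy0 l j]
    rw [e, hcxy l j, e']
    exact B.mul_mem (hx l j) (B.mul_mem (B.prod_mem fun _ _ => hy _ _)
      (B.prod_mem fun _ _ => B.prod_mem fun _ _ => hy _ _))
  obtain ⟨pS, hpS⟩ := hpoly S hSB
  choose pA hpA using fun l j => hpoly _ (h4 l j)
  choose pT hpT using fun j => hpoly _ (ha j)
  -- the monomials
  have h5 : ∀ i, ∃ (e : Fin n → ℤ) (u₁ w₁ : K), u₁ ∈ B ∧ w₁ ∈ B ∧ V.valuation u₁ = 1 ∧
      V.valuation w₁ = 1 ∧ z i * w₁ = (∏ j, t j ^ e j) * u₁ := by
    intro i
    obtain ⟨e, w, hw, hw1, hzi⟩ := hm i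
    obtain ⟨u₁, hu₁, w₁, hw₁, hw₁1, rfl⟩ := hw
    have hw₁0 : w₁ ≠ 0 := ne_zero_of_val_one hw₁1
    refine ⟨e, u₁, w₁, hu₁, hw₁, ?_, hw₁1, ?_⟩
    · rwa [map_div₀, hw₁1, div_one] at hw1
    · rw [hzi, mul_assoc, div_mul_cancel₀ _ hw₁0]
  choose e u₁ w₁ hu₁ hw₁ hu₁1 hw₁1 hze using h5
  choose pu hpu using fun i => hpoly (u₁ i * ∏ j, s j ^ (-e i j).toNat)
    (B.mul_mem (hu₁ i) (B.prod_mem fun j _ => B.pow_mem (hs j) _))
  choose pw hpw using fun i => hpoly (w₁ i * ∏ j, s j ^ (e i j).toNat)
    (B.mul_mem (hw₁ i) (B.prod_mem fun j _ => B.pow_mem (hs j) _))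
  let P : Patch k σ n ζ :=
    { T := pT
      Φ := fun l => rename Sum.inl pS * (X (Sum.inl l) - C (β l)) -
        ∑ j, rename Sum.inl (pA l j) * X (Sum.inr j)
      u := pu
      w := pw
      ep := fun i j => (e i j).toNat
      en := fun i j => (-e i j).toNat }
  have hτ : P.tau (algebraMap k K) b = a := funext fun j => hpT j
  have hpt : P.pt (algebraMap k K) b = Sum.elim b a := by
    change Sum.elim b (P.tau (algebraMap k K) b) = _
    rw [hτ]
  have hevX : ∀ (τ : Fin n → K) (x : σ ⊕ Fin n),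
      eval₂Hom (algebraMap k K) (Sum.elim b τ) (X x) = Sum.elim b τ x := fun τ x => by
    simp
  have hevC : ∀ (τ : Fin n → K) (x : k),
      eval₂Hom (algebraMap k K) (Sum.elim b τ) (C x) = algebraMap k K x := fun τ x => by
    simp
  refine ⟨P, ⟨fun l => ?_, fun i => ?_⟩, ?_⟩
  · rw [hpt]
    change eval₂Hom (algebraMap k K) (Sum.elim b a) (rename Sum.inl pS *
      (X (Sum.inl l) - C (β l)) - ∑ j, rename Sum.inl (pA l j) * X (Sum.inr j)) = 0
    rw [map_sub, map_mul, map_sub, map_sum, hevX, hevC, ev_rename, hpS]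
    have e2 : ∀ j, eval₂Hom (algebraMap k K) (Sum.elim b a)
        (rename Sum.inl (pA l j) * X (Sum.inr j)) = S * c l j * a j := fun j => by
      rw [map_mul, hevX, ev_rename, hpA]
      rfl
    rw [Finset.sum_congr rfl fun j _ => e2 j]
    change S * (b l - algebraMap k K (β l)) - _ = 0
    rw [hce l, Finset.mul_sum, sub_eq_zero]
    exact Finset.sum_congr rfl fun j _ => by ring
  · rw [hτ]
    change z i * (eval₂Hom (algebraMap k K) b (pw i) * ∏ j, a j ^ (-e i j).toNat) =
      eval₂Hom (algebraMap k K) b (pu i) * ∏ j, a j ^ (e i j).toNat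
    rw [hpu, hpw]
    have e1 : ∀ m : Fin n → ℕ, ∏ j, a j ^ m j = (∏ j, t j ^ m j) * ∏ j, s j ^ m j := fun m => by
      rw [← Finset.prod_mul_distrib]
      exact Finset.prod_congr rfl fun j _ => by rw [← hta j, mul_pow]
    have e2 := prod_zpow_toNat ht.ne (e i)
    rw [e1, e1, ← e2]
    calc z i * (w₁ i * (∏ j, s j ^ (e i j).toNat) * ((∏ j, t j ^ (-e i j).toNat) *
          ∏ j, s j ^ (-e i j).toNat)) = (z i * w₁ i) * ((∏ j, s j ^ (e i j).toNat) *
          ((∏ j, t j ^ (-e i j).toNat) * ∏ j, s j ^ (-e i j).toNat)) := by ring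
      _ = u₁ i * (∏ j, s j ^ (-e i j).toNat) * ((∏ j, t j ^ e i j) *
          (∏ j, t j ^ (-e i j).toNat) * ∏ j, s j ^ (e i j).toNat) := by
        rw [hze i]
        ring
  · -- the Jacobian
    have hjac : ∀ l m, P.jac (algebraMap k K) b l m ∈ V ∧
        V.valuation (P.jac (algebraMap k K) b l m - (S • (1 : Matrix σ σ K)) l m) < 1 := by
      intro l m
      have e1 : P.jac (algebraMap k K) b l m = eval₂Hom (algebraMap k K) (Sum.elim b a)
          (pderiv (Sum.inl m) (rename Sum.inl pS * (X (Sum.inl l) - C (β l)) -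
            ∑ j, rename Sum.inl (pA l j) * X (Sum.inr j))) := by
        rw [← hpt]
        rfl
      have hall : ∀ p : MvPolynomial (σ ⊕ Fin n) k,
          eval₂Hom (algebraMap k K) (Sum.elim b a) p ∈ V := fun p => by
        refine hB _ (aeval_mem (R := B) ?_ p)
        rintro (l | j)
        · exact hbB l
        · exact ha j
      have e3 : eval₂Hom (algebraMap k K) (Sum.elim b a)
          (pderiv (Sum.inl m) (rename Sum.inl pS * (X (Sum.inl l) - C (β l)) -
            ∑ j, rename Sum.inl (pA l j) * X (Sum.inr j))) =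
          eval₂Hom (algebraMap k K) (Sum.elim b a) (pderiv (Sum.inl m) (rename Sum.inl pS)) *
            (b l - algebraMap k K (β l)) + S * (if l = m then 1 else 0) -
          ∑ j, eval₂Hom (algebraMap k K) (Sum.elim b a)
            (pderiv (Sum.inl m) (rename Sum.inl (pA l j))) * a j := by
        have e0 : pderiv (Sum.inl m) ((X (Sum.inl l) : MvPolynomial (σ ⊕ Fin n) k) - C (β l)) =
            if l = m then 1 else 0 := by
          rw [map_sub, pderiv_C, sub_zero, pderiv_X]
          by_cases h : l = m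
          · subst h
            simp
          · rw [if_neg h, Pi.single_eq_of_ne (by simpa using h)]
        rw [map_sub, pderiv_mul, e0, map_sum]
        have e4 : ∀ j : Fin n, pderiv (Sum.inl m) (rename Sum.inl (pA l j) * X (Sum.inr j)) =
            pderiv (Sum.inl m) (rename Sum.inl (pA l j)) *
              (X (Sum.inr j) : MvPolynomial (σ ⊕ Fin n) k) := fun j => by
          rw [pderiv_mul, pderiv_X, Pi.single_eq_of_ne (by simp), mul_zero, add_zero]
        rw [Finset.sum_congr rfl fun j _ => e4 j]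
        rw [map_sub, map_add, map_mul, map_mul, map_sum, map_sub, hevX, hevC, ev_rename, hpS]
        have e5 : ∀ j : Fin n, eval₂Hom (algebraMap k K) (Sum.elim b a)
            (pderiv (Sum.inl m) (rename Sum.inl (pA l j)) *
              (X (Sum.inr j) : MvPolynomial (σ ⊕ Fin n) k)) = eval₂Hom (algebraMap k K)
              (Sum.elim b a) (pderiv (Sum.inl m) (rename Sum.inl (pA l j))) * a j := fun j => by
          rw [map_mul, hevX]
          rfl
        rw [Finset.sum_congr rfl fun j _ => e5 j]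
        have e6 : eval₂Hom (algebraMap k K) (Sum.elim b a) (if l = m then
            (1 : MvPolynomial (σ ⊕ Fin n) k) else 0) = if l = m then 1 else 0 := by
          split_ifs
          · exact map_one _
          · exact map_zero _
        rw [e6]
        rfl
      refine ⟨by rw [e1]; exact hall _, ?_⟩
      rw [e1, e3, Matrix.smul_apply, Matrix.one_apply, smul_eq_mul]
      have e7 : ∀ A B C : K, A + B - C - B = A - C := fun A B C => by ring
      rw [e7]
      refine V.valuation.map_sub_lt (mul_lt_right (hall _) (hβ l)) ?_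
      exact sum_lt _ fun j _ => mul_lt_right (hall _) (ha1 j)
    have hSV : ∀ l m, (S • (1 : Matrix σ σ K)) l m ∈ V := fun l m => by
      rw [Matrix.smul_apply, Matrix.one_apply, smul_eq_mul]
      refine V.mul_mem _ _ (hB _ hSB) ?_
      split_ifs
      · exact V.one_mem
      · exact V.zero_mem
    have hd := det_congr (fun l m => (hjac l m).1) hSV fun l m => (hjac l m).2
    have hd1 : V.valuation (S • (1 : Matrix σ σ K)).det = 1 := by
      rw [Matrix.det_smul, Matrix.det_one, mul_one, map_pow, hS1, one_pow]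
    rw [Patch.hv, map_mul, eq_one_of_sub_lt hd1 hd, one_mul, map_prod]
    refine Finset.prod_eq_one fun i _ => ?_
    change V.valuation (eval₂Hom (algebraMap k K) b (pu i) *
      eval₂Hom (algebraMap k K) b (pw i)) = 1
    rw [hpu, hpw]
    simp only [map_mul, map_prod, map_pow, hu₁1, hw₁1, hs1, one_pow, Finset.prod_const_one,
      mul_one]

end Prod

end Pool.Agent.TGD
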